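import Mathlib
import Pool.Agent.W406.TW.LT

set_option autoImplicit false

/-! # Local conditions at the primes for almost all quadratic twists: the general law -/

namespace Pool.Agent.R429.TL

open Finset Pool.Agent.W406.TW

noncomputable section

open Classical in
/-- The number of the primes `p` of `P` with `(D / p) = 1` and `U p`, or `(D / p) = -1` and `V p`. -/
def cnt (P : Finset ℕ) (U V : ℕ → Prop) (D : ℤ) : ℕ :=
  (P.filter (fun p => (jacobiSym D p = 1 ∧ U p) ∨ (jacobiSym D p = -1 ∧ V p))).card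

open Classical in
/-- The number of the primes of `P` with `U` plus the number of the primes of `P` with `V`. -/
def tot (P : Finset ℕ) (U V : ℕ → Prop) : ℕ := (P.filter U).card + (P.filter V).card

open Classical in
def spt (P : Finset ℕ) (U V : ℕ → Prop) : Finset ℕ := P.filter (fun p => U p ∨ V p)

open Classical in
def wt (U V : ℕ → Prop) (p : ℕ) : ℝ := (if U p then 1 else 0) - (if V p then 1 else 0)

open Classical in
def mn (U V : ℕ → Prop) (p : ℕ) : ℝ := (if U p then 1 else 0) + (if V p then 1 else 0)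

lemma wt_abs (U V : ℕ → Prop) (p : ℕ) : |wt U V p| ≤ 1 := by
  unfold wt; split_ifs <;> norm_num

lemma mn_nonneg (U V : ℕ → Prop) (p : ℕ) : 0 ≤ mn U V p := by
  unfold mn; split_ifs <;> norm_num

lemma mn_le (U V : ℕ → Prop) (p : ℕ) : mn U V p ≤ 2 := by
  unfold mn; split_ifs <;> norm_num

lemma jac_zero_of_dvd {p : ℕ} (hp : p.Prime) {D : ℤ} (h : (p : ℤ) ∣ D) : jacobiSym D p = 0 := by
  by_contra hne
  exact not_dvd_of_jac hp hne h

lemma jac_of_not_dvd {p : ℕ} (hp : p.Prime) {D : ℤ} (hpD : ¬ (p : ℤ) ∣ D) :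
    jacobiSym D p = 1 ∨ jacobiSym D p = -1 := by
  rcases jacobiSym.trichotomy D p with h | h | h
  · exfalso
    have : NeZero p := ⟨hp.ne_zero⟩
    have h2 := (jacobiSym.eq_zero_iff_not_coprime).1 h
    apply h2
    rw [Int.gcd_comm]
    exact Int.isCoprime_iff_gcd_eq_one.1
      (((Nat.prime_iff_prime_int.1 hp).coprime_iff_not_dvd).2 hpD)
  · left; exact h
  · right; exact h

lemma cnt_eq (P : Finset ℕ) (hP : ∀ p ∈ P, p.Prime) (U V : ℕ → Prop) (D : ℤ) :
    (cnt P U V D : ℝ) = ∑ p ∈ spt P U V,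
      ((if (p : ℤ) ∣ D then 0 else mn U V p) + wt U V p * (jacobiSym D p : ℝ)) / 2 := by
  classical
  have h1 : cnt P U V D = ((spt P U V).filter
      (fun p => (jacobiSym D p = 1 ∧ U p) ∨ (jacobiSym D p = -1 ∧ V p))).card := by
    unfold cnt spt
    rw [filter_filter]
    congr 1
    apply filter_congr
    intro p _
    tauto
  rw [h1, card_filter]
  push_cast
  refine sum_congr rfl fun p hp => ?_
  have hpp := hP p (mem_filter.1 hp).1
  by_cases hpD : (p : ℤ) ∣ D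
  · rw [if_pos hpD, jac_zero_of_dvd hpp hpD]
    simp
  · rw [if_neg hpD]
    unfold mn wt
    rcases jac_of_not_dvd hpp hpD with hj | hj <;> rw [hj] <;> by_cases hU : U p <;> by_cases hV : V p <;>
      simp [hU, hV] <;> norm_num

lemma tot_eq (P : Finset ℕ) (U V : ℕ → Prop) : (tot P U V : ℝ) = ∑ p ∈ spt P U V, mn U V p := by
  classical
  have h1 : ∑ p ∈ spt P U V, mn U V p = ∑ p ∈ P, mn U V p := by
    unfold spt
    rw [sum_filter_of_ne]
    intro p _ hne
    by_contra hcon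
    push Not at hcon
    apply hne
    unfold mn
    rw [if_neg hcon.1, if_neg hcon.2]; norm_num
  rw [h1]
  unfold tot mn
  rw [sum_add_distrib, card_filter, card_filter]
  push_cast
  rfl

lemma card_spt_le (P : Finset ℕ) (U V : ℕ → Prop) : (spt P U V).card ≤ tot P U V := by
  classical
  unfold spt tot
  rw [filter_or]
  exact card_union_le _ _

/-- The deviation from the mean. -/
lemma dev_le (P : Finset ℕ) (hP : ∀ p ∈ P, p.Prime) (U V : ℕ → Prop) (D : ℤ) :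
    |(cnt P U V D : ℝ) - (tot P U V : ℝ) / 2| ≤
      |SD (spt P U V) (wt U V) (fun p => p) D| / 2 + (((spt P U V).filter (fun p : ℕ => (p : ℤ) ∣ D)).card : ℝ) := by
  classical
  rw [cnt_eq P hP U V D, tot_eq P U V]
  have h1 : ∑ p ∈ spt P U V, ((if (p : ℤ) ∣ D then 0 else mn U V p) + wt U V p * (jacobiSym D p : ℝ)) / 2 -
      (∑ p ∈ spt P U V, mn U V p) / 2 =
      SD (spt P U V) (wt U V) (fun p => p) D / 2 - ∑ p ∈ (spt P U V).filter (fun p : ℕ => (p : ℤ) ∣ D), mn U V p / 2 := by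
    unfold SD
    rw [sum_filter, sum_div, sum_div, ← sum_sub_distrib, ← sum_sub_distrib]
    refine sum_congr rfl fun p _ => ?_
    split_ifs <;> ring
  rw [h1]
  refine (abs_sub _ _).trans ?_
  apply add_le_add
  · rw [abs_div, abs_of_pos (by norm_num : (0 : ℝ) < 2)]
  · rw [abs_of_nonneg (sum_nonneg fun p _ => by have := mn_nonneg U V p; linarith)]
    calc ∑ p ∈ (spt P U V).filter (fun p : ℕ => (p : ℤ) ∣ D), mn U V p / 2
        ≤ ∑ p ∈ (spt P U V).filter (fun p : ℕ => (p : ℤ) ∣ D), (1 : ℝ) :=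
          sum_le_sum fun p _ => by have := mn_le U V p; linarith
      _ = _ := by simp

/-- For almost all `D` the numbers of the primes with a local condition which depends on the value of `(D / p)` are the means. -/
theorem law (κ ε : ℝ) (hκ : 0 ≤ κ) (hε : 0 < ε) :
    ∃ C c : ℝ, 0 < C ∧ 0 < c ∧ ∃ N₀ : ℕ, ∀ N : ℕ, N₀ ≤ N →
      ∀ (α : Type) (Λ : ℕ → Finset α) (P : ℕ → α → Finset ℕ) (U V : α → ℕ → Prop),
        (∀ x, 1 ≤ x → ((Λ x).card : ℝ) ≤ (x : ℝ) ^ κ) →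
        (∀ x, ∀ l ∈ Λ x, ∀ p ∈ P x l, p.Prime ∧ p ≠ 2 ∧ p ≤ x) →
        (({D : ℤ | D ≠ 0 ∧ |D| ≤ N ∧ ∃ x : ℕ, (Real.log N) ^ C ≤ x ∧ (x : ℝ) ≤ (N : ℝ) ^ c ∧
          ∃ l ∈ Λ x, √(tot (P x l) (U l) (V l) : ℝ) * (x : ℝ) ^ ε <
            |(cnt (P x l) (U l) (V l) D : ℝ) - (tot (P x l) (U l) (V l) : ℝ) / 2|}.ncard : ℕ) : ℝ) ≤ (N : ℝ) ^ (1 - c) := by
  classical
  obtain ⟨A₀, c, hA₀, hc, N₁, hN₁⟩ := uniform 1 κ (ε / 2) hκ (by positivity)
  set C : ℝ := max A₀ (2 / ε) with hC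
  have hC0 : 0 < C := lt_max_of_lt_left hA₀
  have hK₁ : ∃ K₁ : ℕ, ∀ K : ℕ, K₁ ≤ K → (5 : ℝ) ≤ (K : ℝ) ^ (ε / 2) := by
    have := ((tendsto_rpow_atTop (by positivity : 0 < ε / 2)).comp
      tendsto_natCast_atTop_atTop).eventually_ge_atTop (5 : ℝ)
    exact Filter.eventually_atTop.1 this
  obtain ⟨K₁, hK₁⟩ := hK₁
  have hlim := ((tendsto_rpow_atTop hC0).comp (Real.tendsto_log_atTop.comp
    tendsto_natCast_atTop_atTop)).eventually_ge_atTop (K₁ : ℝ)
  have hlim2 := (Real.tendsto_log_atTop.comp tendsto_natCast_atTop_atTop).eventually_ge_atTop (1 : ℝ)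
  obtain ⟨N₂, hN₂⟩ := Filter.eventually_atTop.1 (hlim.and hlim2)
  refine ⟨C, c, hC0, hc, max N₁ N₂, fun N hN α Λ P U V hΛ hPp => ?_⟩
  have hNN₁ : N₁ ≤ N := le_trans (le_max_left _ _) hN
  obtain ⟨hL, hL1⟩ := hN₂ N (le_trans (le_max_right _ _) hN)
  simp only [Function.comp_apply] at hL hL1
  have key := hN₁ N hNN₁ ℕ α Λ (fun y l => spt (P y l) (U l) (V l))
    (fun _ l => wt (U l) (V l)) (fun _ _ p => p) ?_
  swap
  · intro y hy1 hy2
    have hy0 : 1 ≤ y := by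
      have h1 : (0 : ℝ) < (Real.log N) ^ A₀ := Real.rpow_pos_of_pos (by linarith) _
      have h2 : (0 : ℝ) < y := by linarith
      exact_mod_cast h2
    constructor
    · exact hΛ y hy0
    · intro l hl
      have hsub : ∀ p ∈ spt (P y l) (U l) (V l), p ∈ P y l := fun p hp => (mem_filter.1 hp).1
      refine ⟨?_, ?_, ?_, ?_, ?_⟩
      · have : (spt (P y l) (U l) (V l)).card ≤ (Icc 1 y).card := by
          apply card_le_card
          intro p hp
          have h := hPp y l hl p (hsub p hp)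
          exact mem_Icc.2 ⟨h.1.one_lt.le, h.2.2⟩
        simpa using this
      · intro p hp
        have h := hPp y l hl p (hsub p hp)
        exact h.1.odd_of_ne_two h.2.1
      · intro p hp
        rw [pow_one]
        exact (hPp y l hl p (hsub p hp)).2.2
      · exact indep_id _ fun p hp => (hPp y l hl p (hsub p hp)).1
      · intro p _
        exact wt_abs _ _ _
  refine le_trans ?_ key
  rw [← Set.ncard_coe_finset]
  have hle : ({D : ℤ | D ≠ 0 ∧ |D| ≤ N ∧ ∃ x : ℕ, (Real.log N) ^ C ≤ x ∧ (x : ℝ) ≤ (N : ℝ) ^ c ∧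
          ∃ l ∈ Λ x, √(tot (P x l) (U l) (V l) : ℝ) * (x : ℝ) ^ ε <
            |(cnt (P x l) (U l) (V l) D : ℝ) - (tot (P x l) (U l) (V l) : ℝ) / 2|}).ncard ≤ _ :=
    Set.ncard_le_ncard (t := (((Icc (-(N : ℤ)) N).filter (fun D => ∃ y : ℕ, (Real.log N) ^ A₀ ≤ y ∧
      (y : ℝ) ≤ (N : ℝ) ^ c ∧ ∃ l ∈ Λ y, √(((spt (P y l) (U l) (V l)).card : ℕ) : ℝ) * (y : ℝ) ^ (ε / 2) <
        |SD (spt (P y l) (U l) (V l)) (wt (U l) (V l)) (fun p => p) D|) : Finset ℤ) : Set ℤ)) ?_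
          (Finset.finite_toSet _)
  · exact_mod_cast hle
  intro D hD
  obtain ⟨hD0, hDN, x, hx1, hx2, l, hl, hlt⟩ := hD
  rw [mem_coe, mem_filter]
  refine ⟨mem_Icc.2 (abs_le.1 hDN), ?_⟩
  by_contra hcon
  apply absurd hlt
  rw [not_lt]
  have hxA : (Real.log N) ^ A₀ ≤ x :=
    le_trans (Real.rpow_le_rpow_of_exponent_le hL1 (le_max_left _ _)) hx1
  have hxK : K₁ ≤ x := by exact_mod_cast le_trans hL hx1
  have hxε : Real.log N ≤ (x : ℝ) ^ (ε / 2) := by
    have h1 : (Real.log N) ^ (2 / ε) ≤ x :=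
      le_trans (Real.rpow_le_rpow_of_exponent_le hL1 (le_max_right _ _)) hx1
    calc Real.log N = ((Real.log N) ^ (2 / ε)) ^ (ε / 2) := by
          rw [← Real.rpow_mul (by linarith)]
          rw [show 2 / ε * (ε / 2) = 1 by field_simp, Real.rpow_one]
      _ ≤ _ := Real.rpow_le_rpow (by positivity) h1 (by positivity)
  obtain ⟨S, hS⟩ : ∃ S, S = spt (P x l) (U l) (V l) := ⟨_, rfl⟩
  have hPr : ∀ p ∈ P x l, p.Prime := fun p hp => (hPp x l hl p hp).1
  have hSp : ∀ p ∈ S, p.Prime := fun p hp => hPr p (mem_filter.1 (hS ▸ hp)).1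
  have hdev := dev_le (P x l) hPr (U l) (V l) D
  rw [← hS] at hdev
  have hcard : ((S.card : ℕ) : ℝ) ≤ (tot (P x l) (U l) (V l) : ℝ) := by
    rw [hS]; exact_mod_cast card_spt_le _ _ _
  refine hdev.trans ?_
  -- the sum is small
  have hsmall : |SD S (wt (U l) (V l)) (fun p => p) D| ≤ √(S.card : ℝ) * (x : ℝ) ^ (ε / 2) := by
    by_contra hlt'
    rw [not_le, hS] at hlt'
    exact hcon ⟨x, hxA, hx2, l, hl, hlt'⟩
  have hdiv : ((S.filter (fun p : ℕ => (p : ℤ) ∣ D)).card : ℝ) ≤ √(S.card : ℝ) * (2 * (x : ℝ) ^ (ε / 2)) := by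
    rcases S.eq_empty_or_nonempty with hPe | hPn
    · rw [hPe]; simp
    · have h1 : (1 : ℝ) ≤ √(S.card : ℝ) := by
        rw [Real.one_le_sqrt]
        exact_mod_cast hPn.card_pos
      have h2 := few_div S hSp D hD0
      have h3 : Real.log (D.natAbs : ℝ) ≤ (x : ℝ) ^ (ε / 2) := by
        refine le_trans ?_ hxε
        apply Real.log_le_log
        · have := Int.natAbs_pos.2 hD0
          exact_mod_cast this
        · have : (D.natAbs : ℤ) ≤ N := by rwa [Int.natCast_natAbs]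
          exact_mod_cast this
      have h4 : 0 ≤ (x : ℝ) ^ (ε / 2) := by positivity
      nlinarith
  have h3 := hK₁ x hxK
  have hx0 : (0 : ℝ) < x := by
    have : (0 : ℝ) < (Real.log N) ^ C := Real.rpow_pos_of_pos (by linarith) _
    linarith
  have e2 : (x : ℝ) ^ ε = (x : ℝ) ^ (ε / 2) * (x : ℝ) ^ (ε / 2) := by
    rw [← Real.rpow_add hx0]; congr 1; ring
  rw [e2]
  obtain ⟨b, hb⟩ : ∃ b : ℝ, b = (x : ℝ) ^ (ε / 2) := ⟨_, rfl⟩
  rw [← hb] at h3 hdiv hsmall ⊢
  have hs1 : √(S.card : ℝ) ≤ √(tot (P x l) (U l) (V l) : ℝ) := Real.sqrt_le_sqrt hcard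
  have hs0 : 0 ≤ √(S.card : ℝ) := Real.sqrt_nonneg _
  calc |SD S (wt (U l) (V l)) (fun p => p) D| / 2 + ((S.filter (fun p : ℕ => (p : ℤ) ∣ D)).card : ℝ)
      ≤ √(S.card : ℝ) * b + √(S.card : ℝ) * (2 * b) := by
        have : 0 ≤ |SD S (wt (U l) (V l)) (fun p => p) D| := abs_nonneg _
        linarith
    _ = √(S.card : ℝ) * (3 * b) := by ring
    _ ≤ √(tot (P x l) (U l) (V l) : ℝ) * (b * b) := by
        apply mul_le_mul hs1 (by nlinarith) (by linarith) (Real.sqrt_nonneg _)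

end

end Pool.Agent.R429.TL
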