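import Mathlib
import Pool.Agent.R429.TL.Law

set_option autoImplicit false

/-! # Local conditions at the primes `p ≤ x` for the twists by all `|D| ≤ N`, `N → ∞` -/

namespace Pool.Agent.R429.TL

open Finset Pool.Agent.W406.TW

noncomputable section

lemma card_mult (N k : ℕ) (hk : 0 < k) :
    (((Icc (-(N : ℤ)) N).filter (fun D => (k : ℤ) ∣ D)).card : ℝ) ≤ 2 * N / k + 1 := by
  have hk' : (0 : ℝ) < k := by exact_mod_cast hk
  have h1 : (Icc (-(N : ℤ)) N) = Ioc (-(N : ℤ) - 1) N := by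
    ext D; rw [mem_Icc, mem_Ioc]; omega
  rw [h1]
  have h3 := Int.Ioc_filter_dvd_card (-(N : ℤ) - 1) N (r := (k : ℤ)) (by exact_mod_cast hk)
  have hkq : (0 : ℚ) < k := by exact_mod_cast hk
  have h4 : (⌊((N : ℤ) : ℚ) / ((k : ℤ) : ℚ)⌋ : ℚ) ≤ (N : ℚ) / k := by
    have := Int.floor_le (((N : ℤ) : ℚ) / ((k : ℤ) : ℚ))
    simpa using this
  have h5 : (-(N : ℚ)) / k - 1 ≤ (⌊((-(N : ℤ) - 1 : ℤ) : ℚ) / ((k : ℤ) : ℚ)⌋ : ℚ) := by
    have h6 : ((-(N : ℤ) - 1) / (k : ℤ) : ℤ) = ⌊((-(N : ℤ) - 1 : ℤ) : ℚ) / ((k : ℤ) : ℚ)⌋ := by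
      symm
      have := Rat.floor_intCast_div_natCast (-(N : ℤ) - 1) k
      simpa using this
    rw [← h6]
    have h7 : -(N : ℤ) ≤ k * ((-(N : ℤ) - 1) / (k : ℤ) + 1) := by
      have h8 := Int.emod_add_mul_ediv (-(N : ℤ) - 1) (k : ℤ)
      have h9 := Int.emod_lt_of_pos (-(N : ℤ) - 1) (show (0 : ℤ) < k by exact_mod_cast hk)
      linarith
    have h10 : (-(N : ℚ)) ≤ k * ((((-(N : ℤ) - 1) / (k : ℤ) : ℤ) : ℚ) + 1) := by exact_mod_cast h7
    rw [sub_le_iff_le_add, div_le_iff₀ hkq]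
    linarith
  have h11 : ((((Ioc (-(N : ℤ) - 1) N).filter (fun D => (k : ℤ) ∣ D)).card : ℤ) : ℚ) ≤ 2 * N / k + 1 := by
    rw [h3]
    push_cast
    apply max_le
    · push_cast at h4 h5
      have : (-(N : ℚ)) / k = -((N : ℚ) / k) := neg_div _ _
      have h12 : 2 * (N : ℚ) / k = N / k + N / k := by ring
      linarith
    · positivity
  have h13 : ((((Ioc (-(N : ℤ) - 1) N).filter (fun D => (k : ℤ) ∣ D)).card : ℚ)) ≤ 2 * N / k + 1 := by exact_mod_cast h11
  have h14 : (((((Ioc (-(N : ℤ) - 1) N).filter (fun D => (k : ℤ) ∣ D)).card : ℚ)) : ℝ) ≤ ((2 * N / k + 1 : ℚ) : ℝ) := by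
    exact_mod_cast h13
  push_cast at h14
  exact h14

/-- Integers with many prime divisors in a given set. -/
lemma many_div (P : Finset ℕ) (hP : ∀ p ∈ P, p.Prime) (x N : ℕ) (hx : ∀ p ∈ P, p ≤ x) (V : ℕ) :
    (((Icc (-(N : ℤ)) N).filter (fun D => V ≤ (P.filter (fun p : ℕ => (p : ℤ) ∣ D)).card)).card : ℝ) * 2 ^ V ≤
      2 * N * (x + 1) + 2 ^ P.card := by
  classical
  have h1 : (((Icc (-(N : ℤ)) N).filter (fun D => V ≤ (P.filter (fun p : ℕ => (p : ℤ) ∣ D)).card)).card : ℝ) * 2 ^ V ≤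
      ∑ D ∈ Icc (-(N : ℤ)) N, (2 : ℝ) ^ (P.filter (fun p : ℕ => (p : ℤ) ∣ D)).card := by
    calc (((Icc (-(N : ℤ)) N).filter (fun D => V ≤ (P.filter (fun p : ℕ => (p : ℤ) ∣ D)).card)).card : ℝ) * 2 ^ V
        = ∑ D ∈ (Icc (-(N : ℤ)) N).filter (fun D => V ≤ (P.filter (fun p : ℕ => (p : ℤ) ∣ D)).card), (2 : ℝ) ^ V := by
          rw [sum_const, nsmul_eq_mul]
      _ ≤ ∑ D ∈ (Icc (-(N : ℤ)) N).filter (fun D => V ≤ (P.filter (fun p : ℕ => (p : ℤ) ∣ D)).card),
            (2 : ℝ) ^ (P.filter (fun p : ℕ => (p : ℤ) ∣ D)).card :=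
          sum_le_sum fun D hD => pow_le_pow_right₀ (by norm_num) (mem_filter.1 hD).2
      _ ≤ _ := sum_le_sum_of_subset_of_nonneg (filter_subset _ _) fun _ _ _ => by positivity
  refine h1.trans ?_
  have h2 : ∀ D : ℤ, (2 : ℝ) ^ (P.filter (fun p : ℕ => (p : ℤ) ∣ D)).card =
      ∑ T ∈ P.powerset, if ((∏ p ∈ T, p : ℕ) : ℤ) ∣ D then (1 : ℝ) else 0 := by
    intro D
    have h3 : ((P.filter (fun p : ℕ => (p : ℤ) ∣ D)).powerset.card : ℝ) = (2 : ℝ) ^ (P.filter (fun p : ℕ => (p : ℤ) ∣ D)).card := by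
      rw [card_powerset]; push_cast; rfl
    rw [← h3]
    have h4 : (P.filter (fun p : ℕ => (p : ℤ) ∣ D)).powerset = P.powerset.filter (fun T => ((∏ p ∈ T, p : ℕ) : ℤ) ∣ D) := by
      ext T
      rw [mem_powerset, mem_filter, mem_powerset]
      constructor
      · intro hT
        refine ⟨hT.trans (filter_subset _ _), ?_⟩
        push_cast
        apply Finset.prod_dvd_of_coprime
        · intro p hp q hq hne
          have hpp := hP p (mem_filter.1 (hT hp)).1
          have hqp := hP q (mem_filter.1 (hT hq)).1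
          exact Nat.isCoprime_iff_coprime.2 ((Nat.coprime_primes hpp hqp).2 hne)
        · intro p hp
          exact (mem_filter.1 (hT hp)).2
      · rintro ⟨hT, hd⟩ p hp
        rw [mem_filter]
        refine ⟨hT hp, dvd_trans ?_ hd⟩
        exact_mod_cast dvd_prod_of_mem (fun p => p) hp
    rw [h4, card_filter]
    push_cast
    rfl
  rw [sum_congr rfl fun D _ => h2 D, sum_comm]
  calc ∑ T ∈ P.powerset, ∑ D ∈ Icc (-(N : ℤ)) N, (if ((∏ p ∈ T, p : ℕ) : ℤ) ∣ D then (1 : ℝ) else 0)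
      ≤ ∑ T ∈ P.powerset, (2 * N * ∏ p ∈ T, (1 / (p : ℝ)) + 1) := by
        apply sum_le_sum
        intro T hT
        have hTP := mem_powerset.1 hT
        have h5 : 0 < ∏ p ∈ T, p := prod_pos fun p hp => (hP p (hTP hp)).pos
        have h6 := card_mult N (∏ p ∈ T, p) h5
        rw [← sum_filter, sum_const, nsmul_eq_mul, mul_one]
        refine h6.trans (le_of_eq ?_)
        rw [prod_div_distrib, prod_const_one]
        push_cast
        ring
    _ = 2 * N * ∏ p ∈ P, (1 + 1 / (p : ℝ)) + 2 ^ P.card := by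
        rw [sum_add_distrib, ← mul_sum, prod_one_add, sum_const, card_powerset, nsmul_eq_mul, mul_one]
        push_cast
        rfl
    _ ≤ _ := by
        have h7 : ∏ p ∈ P, (1 + 1 / (p : ℝ)) ≤ x + 1 := by
          calc ∏ p ∈ P, (1 + 1 / (p : ℝ)) ≤ ∏ n ∈ Icc 1 x, (1 + 1 / (n : ℝ)) := by
                apply prod_le_prod_of_subset_of_one_le
                · intro p hp
                  exact mem_Icc.2 ⟨(hP p hp).one_lt.le, hx p hp⟩
                · intro n _
                  positivity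
                · intro n _ _
                  have : (0 : ℝ) ≤ 1 / n := by positivity
                  linarith
            _ = x + 1 := by
                clear hx h1 h2
                induction x with
                | zero => simp
                | succ k ih =>
                  rw [prod_Icc_succ_top (by omega), ih]
                  have : ((k : ℝ) + 1) ≠ 0 := by positivity
                  push_cast
                  field_simp
        have h8 : (0 : ℝ) ≤ 2 * N := by positivity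
        nlinarith [mul_le_mul_of_nonneg_left h7 h8]

end

end Pool.Agent.R429.TL
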