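import Mathlib
import Pool.Agent.R429.TL.Weak

set_option autoImplicit false

/-! # Local conditions at the primes `p ≤ x` for the twists by all `|D| ≤ N`, `N → ∞`: the law with a proportion `x ^ (-A)`
of exceptions -/

namespace Pool.Agent.R429.TL

open Finset Pool.Agent.W406.TW Filter

noncomputable section

lemma ev_exp (δ b A K : ℝ) (hδ : 0 < δ) (hb : 0 < b) :
    ∀ᶠ x : ℕ in atTop, K * (x : ℝ) ^ A ≤ Real.exp (b * (x : ℝ) ^ δ) := by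
  have h1 := isLittleO_rpow_exp_pos_mul_atTop (A / δ) hb
  have h2 : Tendsto (fun x : ℕ => (x : ℝ) ^ δ) atTop atTop := (tendsto_rpow_atTop hδ).comp tendsto_natCast_atTop_atTop
  have h3 := h1.comp_tendsto h2
  have h4 := h3.bound (c := 1 / (|K| + 1)) (by positivity)
  filter_upwards [h4, eventually_ge_atTop 1] with x hx hx1
  simp only [Function.comp_apply] at hx
  have hx0 : (0 : ℝ) < x := by exact_mod_cast hx1
  rw [← Real.rpow_mul hx0.le, mul_div_cancel₀ _ hδ.ne', Real.norm_of_nonneg (by positivity),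
    Real.norm_of_nonneg (by positivity), one_div, inv_mul_eq_div, le_div_iff₀ (by positivity)] at hx
  have h5 : 0 ≤ (x : ℝ) ^ A := by positivity
  have h6 : K ≤ |K| := le_abs_self K
  nlinarith

theorem weak (δ η A : ℝ) (hδ : 0 < δ) (hη : 0 < η) : ∃ x₀ : ℕ, ∀ x : ℕ, x₀ ≤ x → ∀ (P : Finset ℕ) (U V : ℕ → Prop),
    (∀ p ∈ P, p.Prime ∧ p ≠ 2 ∧ p ≤ x) → ∃ N₁ : ℕ, ∀ N : ℕ, N₁ ≤ N →
      (((Icc (-(N : ℤ)) N).filter (fun D => η * max (tot P U V : ℝ) ((x : ℝ) ^ δ) <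
        |(cnt P U V D : ℝ) - (tot P U V : ℝ) / 2|)).card : ℝ) ≤ (x : ℝ) ^ (-A) * N := by
  classical
  obtain ⟨m, hm⟩ : ∃ m : ℕ, |A| + 1 ≤ δ * m ∧ 1 ≤ m := by
    refine ⟨⌈(|A| + 1) / δ⌉₊ + 1, ?_, by omega⟩
    have h1 := Nat.le_ceil ((|A| + 1) / δ)
    rw [div_le_iff₀ hδ] at h1
    push_cast
    nlinarith
  obtain ⟨hm1, hm2⟩ := hm
  have hlog2 : 0 < Real.log 2 := Real.log_pos (by norm_num)
  have hev1 := ev_exp δ (Real.log 2 * (η / 2)) (|A| + 1) 16 hδ (by positivity)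
  have hev2 : ∀ᶠ x : ℕ in atTop, 12 * ((2 * m : ℕ) : ℝ) ^ m / η ^ (2 * m) ≤ (x : ℝ) :=
    tendsto_natCast_atTop_atTop.eventually_ge_atTop _
  obtain ⟨x₀, hx₀⟩ := eventually_atTop.1 (hev1.and (hev2.and (eventually_ge_atTop 1)))
  refine ⟨x₀, fun x hx P U V hP => ?_⟩
  obtain ⟨he1, he2, hx1⟩ := hx₀ x hx
  have hxr : (1 : ℝ) ≤ x := by exact_mod_cast hx1
  have hx0 : (0 : ℝ) < x := by linarith
  obtain ⟨M, hM⟩ : ∃ M : ℝ, M = max (tot P U V : ℝ) ((x : ℝ) ^ δ) := ⟨_, rfl⟩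
  have hMS : (tot P U V : ℝ) ≤ M := hM ▸ le_max_left _ _
  have hMx : (x : ℝ) ^ δ ≤ M := hM ▸ le_max_right _ _
  have hxδ : 1 ≤ (x : ℝ) ^ δ := Real.one_le_rpow hxr hδ.le
  have hM0 : 0 < M := by linarith
  obtain ⟨S, hS⟩ : ∃ S, S = spt P U V := ⟨_, rfl⟩
  have hSP : ∀ p ∈ S, p.Prime ∧ p ≠ 2 ∧ p ≤ x := fun p hp => hP p (mem_filter.1 (hS ▸ hp)).1
  have hScard : (S.card : ℝ) ≤ M := by
    refine le_trans ?_ hMS
    rw [hS]; exact_mod_cast card_spt_le _ _ _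
  obtain ⟨N₁, hN₁⟩ := exists_nat_ge (4 * (x : ℝ) ^ |A| * ((x : ℝ) ^ (2 * m) / η ^ (2 * m) + 2 ^ S.card) + 1)
  refine ⟨N₁, fun N hN => ?_⟩
  rw [← hM]
  have hNr : 4 * (x : ℝ) ^ |A| * ((x : ℝ) ^ (2 * m) / η ^ (2 * m) + 2 ^ S.card) + 1 ≤ N :=
    hN₁.trans (by exact_mod_cast hN)
  have hxA1 : 1 ≤ (x : ℝ) ^ |A| := Real.one_le_rpow hxr (abs_nonneg A)
  have hN1 : (1 : ℝ) ≤ N := by
    have : 0 ≤ 4 * (x : ℝ) ^ |A| * ((x : ℝ) ^ (2 * m) / η ^ (2 * m) + 2 ^ S.card) := by positivity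
    linarith
  have hAA : (x : ℝ) ^ (-|A|) ≤ (x : ℝ) ^ (-A) :=
    Real.rpow_le_rpow_of_exponent_le hxr (neg_le_neg (le_abs_self A))
  have hAinv : (x : ℝ) ^ (-|A|) * (x : ℝ) ^ |A| = 1 := by
    rw [← Real.rpow_add hx0, neg_add_cancel, Real.rpow_zero]
  have hpos : 0 < (x : ℝ) ^ (-|A|) := Real.rpow_pos_of_pos hx0 _
  -- the two parts
  obtain ⟨B1, hB1⟩ : ∃ B1, B1 = (Icc (-(N : ℤ)) N).filter (fun D => η * M < |SD S (wt U V) (fun p => p) D|) := ⟨_, rfl⟩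
  obtain ⟨v, hv⟩ : ∃ v : ℕ, v = ⌊η * M / 2⌋₊ + 1 := ⟨_, rfl⟩
  obtain ⟨B2, hB2⟩ : ∃ B2, B2 = (Icc (-(N : ℤ)) N).filter (fun D => v ≤ (S.filter (fun p : ℕ => (p : ℤ) ∣ D)).card) := ⟨_, rfl⟩
  have hsub : (Icc (-(N : ℤ)) N).filter (fun D => η * M < |(cnt P U V D : ℝ) - (tot P U V : ℝ) / 2|) ⊆ B1 ∪ B2 := by
    intro D hD
    rw [mem_filter] at hD
    obtain ⟨hDN, hlt⟩ := hD
    have hdev := dev_le P (fun p hp => (hP p hp).1) U V D
    rw [← hS] at hdev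
    rw [mem_union, hB1, hB2, mem_filter, mem_filter]
    by_cases h1 : η * M < |SD S (wt U V) (fun p => p) D|
    · left; exact ⟨hDN, h1⟩
    · right
      refine ⟨hDN, ?_⟩
      push Not at h1
      have h2 : η * M / 2 < ((S.filter (fun p : ℕ => (p : ℤ) ∣ D)).card : ℝ) := by linarith
      rw [hv]
      have h3 : ⌊η * M / 2⌋₊ < (S.filter (fun p : ℕ => (p : ℤ) ∣ D)).card := by
        rw [Nat.floor_lt (by positivity)]
        exact h2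
      omega
  have hc : (((Icc (-(N : ℤ)) N).filter (fun D => η * M < |(cnt P U V D : ℝ) - (tot P U V : ℝ) / 2|)).card : ℝ) ≤
      (B1.card : ℝ) + B2.card := by
    have := (card_le_card hsub).trans (card_union_le _ _)
    exact_mod_cast this
  refine hc.trans ?_
  -- the first part
  have hb1 : (B1.card : ℝ) ≤ (x : ℝ) ^ (-A) * N / 2 := by
    have h1 := few S (wt U V) (fun p => p) N m x (η * M) (by positivity)
      (fun p hp => (hSP p hp).1.odd_of_ne_two (hSP p hp).2.1) (fun p hp => (hSP p hp).2.2)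
      (indep_id _ fun p hp => (hSP p hp).1) (fun p _ => wt_abs _ _ _)
    rw [← hB1] at h1
    have hS0 : (0 : ℝ) ≤ S.card := Nat.cast_nonneg _
    have h2 : (B1.card : ℝ) * (η * M) ^ (2 * m) ≤
        ((2 * m : ℕ) : ℝ) ^ m * M ^ m * (3 * N) + M ^ (2 * m) * (x : ℝ) ^ (2 * m) := by
      refine h1.trans ?_
      gcongr
      linarith
    have h3 : (0 : ℝ) < (η * M) ^ (2 * m) := by positivity
    have h4 : (B1.card : ℝ) ≤ 3 * ((2 * m : ℕ) : ℝ) ^ m / η ^ (2 * m) * N / M ^ m + (x : ℝ) ^ (2 * m) / η ^ (2 * m) := by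
      rw [← le_div_iff₀ h3] at h2
      refine h2.trans (le_of_eq ?_)
      have e1 : (η * M) ^ (2 * m) = η ^ (2 * m) * (M ^ m * M ^ m) := by
        rw [mul_pow, ← pow_add]; congr 2; ring
      have e2 : M ^ (2 * m) = M ^ m * M ^ m := by rw [← pow_add]; congr 1; ring
      rw [e1, e2]
      have hMm : M ^ m ≠ 0 := by positivity
      have hηm : η ^ (2 * m) ≠ 0 := by positivity
      field_simp
    have h5 : (x : ℝ) ^ (|A| + 1) ≤ M ^ m := by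
      calc (x : ℝ) ^ (|A| + 1) ≤ (x : ℝ) ^ (δ * m) := Real.rpow_le_rpow_of_exponent_le hxr hm1
        _ = ((x : ℝ) ^ δ) ^ m := by rw [Real.rpow_mul hx0.le, Real.rpow_natCast]
        _ ≤ M ^ m := pow_le_pow_left₀ (by positivity) hMx m
    have h6 : 3 * ((2 * m : ℕ) : ℝ) ^ m / η ^ (2 * m) * N / M ^ m ≤ (x : ℝ) ^ (-|A|) * N / 4 := by
      rw [div_le_iff₀ (by positivity)]
      have e3 : (x : ℝ) ^ (-|A|) * (x : ℝ) ^ (|A| + 1) = x := by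
        rw [← Real.rpow_add hx0]
        simp
      calc 3 * ((2 * m : ℕ) : ℝ) ^ m / η ^ (2 * m) * N = (12 * ((2 * m : ℕ) : ℝ) ^ m / η ^ (2 * m)) * N / 4 := by ring
        _ ≤ x * N / 4 := by gcongr
        _ = ((x : ℝ) ^ (-|A|) * (x : ℝ) ^ (|A| + 1)) * N / 4 := by rw [e3]
        _ = (x : ℝ) ^ (-|A|) * N / 4 * (x : ℝ) ^ (|A| + 1) := by ring
        _ ≤ (x : ℝ) ^ (-|A|) * N / 4 * M ^ m := by gcongr
    have h7 : (x : ℝ) ^ (2 * m) / η ^ (2 * m) ≤ (x : ℝ) ^ (-|A|) * N / 4 := by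
      have h8 : 4 * (x : ℝ) ^ |A| * ((x : ℝ) ^ (2 * m) / η ^ (2 * m)) ≤ N := by
        have h9 : 0 ≤ 4 * (x : ℝ) ^ |A| * (2 : ℝ) ^ S.card := by positivity
        have h10 : 4 * (x : ℝ) ^ |A| * ((x : ℝ) ^ (2 * m) / η ^ (2 * m) + 2 ^ S.card) =
          4 * (x : ℝ) ^ |A| * ((x : ℝ) ^ (2 * m) / η ^ (2 * m)) + 4 * (x : ℝ) ^ |A| * (2 : ℝ) ^ S.card := by ring
        linarith
      have h11 := mul_le_mul_of_nonneg_left h8 hpos.le
      have e4 : (x : ℝ) ^ (-|A|) * (4 * (x : ℝ) ^ |A| * ((x : ℝ) ^ (2 * m) / η ^ (2 * m))) =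
        4 * ((x : ℝ) ^ (2 * m) / η ^ (2 * m)) * ((x : ℝ) ^ (-|A|) * (x : ℝ) ^ |A|) := by ring
      rw [e4, hAinv, mul_one] at h11
      linarith
    have h12 : (x : ℝ) ^ (-|A|) * N ≤ (x : ℝ) ^ (-A) * N := mul_le_mul_of_nonneg_right hAA (by linarith)
    linarith
  -- the second part
  have hb2 : (B2.card : ℝ) ≤ (x : ℝ) ^ (-A) * N / 2 := by
    have h1 := many_div S (fun p hp => (hSP p hp).1) x N (fun p hp => (hSP p hp).2.2) v
    rw [← hB2] at h1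
    have h2 : 16 * (x : ℝ) ^ (|A| + 1) ≤ 2 ^ v := by
      refine he1.trans ?_
      have h3 : η / 2 * (x : ℝ) ^ δ ≤ v := by
        have h4 : η * M / 2 < v := by
          rw [hv]; push_cast; exact Nat.lt_floor_add_one _
        have h5 : η * (x : ℝ) ^ δ ≤ η * M := mul_le_mul_of_nonneg_left hMx hη.le
        linarith
      have h4 : (2 : ℝ) ^ v = Real.exp (Real.log 2 * v) := by
        rw [mul_comm, Real.exp_nat_mul, Real.exp_log (by norm_num)]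
      rw [h4]
      apply Real.exp_le_exp.2
      rw [mul_assoc]
      exact mul_le_mul_of_nonneg_left h3 hlog2.le
    have e3 : (x : ℝ) ^ (-|A|) * (x : ℝ) ^ (|A| + 1) = x := by
      rw [← Real.rpow_add hx0]
      simp
    have h3 : (16 : ℝ) * x ≤ (x : ℝ) ^ (-|A|) * 2 ^ v := by
      have := mul_le_mul_of_nonneg_left h2 hpos.le
      have e5 : (x : ℝ) ^ (-|A|) * (16 * (x : ℝ) ^ (|A| + 1)) = 16 * ((x : ℝ) ^ (-|A|) * (x : ℝ) ^ (|A| + 1)) := by ring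
      rw [e5, e3] at this
      exact this
    have h2v : (0 : ℝ) < 2 ^ v := by positivity
    have h4 : (2 : ℝ) ^ S.card ≤ (x : ℝ) ^ (-|A|) * N / 4 := by
      have h8 : 4 * (x : ℝ) ^ |A| * (2 : ℝ) ^ S.card ≤ N := by
        have h9 : 0 ≤ 4 * (x : ℝ) ^ |A| * ((x : ℝ) ^ (2 * m) / η ^ (2 * m)) := by positivity
        have h10 : 4 * (x : ℝ) ^ |A| * ((x : ℝ) ^ (2 * m) / η ^ (2 * m) + 2 ^ S.card) =
          4 * (x : ℝ) ^ |A| * ((x : ℝ) ^ (2 * m) / η ^ (2 * m)) + 4 * (x : ℝ) ^ |A| * (2 : ℝ) ^ S.card := by ring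
        linarith
      have h11 := mul_le_mul_of_nonneg_left h8 hpos.le
      have e4 : (x : ℝ) ^ (-|A|) * (4 * (x : ℝ) ^ |A| * (2 : ℝ) ^ S.card) =
        4 * (2 : ℝ) ^ S.card * ((x : ℝ) ^ (-|A|) * (x : ℝ) ^ |A|) := by ring
      rw [e4, hAinv, mul_one] at h11
      linarith
    have h5 : 2 * (N : ℝ) * (x + 1) ≤ 4 * N * x := by nlinarith
    have h6 : 4 * (N : ℝ) * x ≤ (x : ℝ) ^ (-|A|) * N / 4 * 2 ^ v := by nlinarith
    have h7 : (x : ℝ) ^ (-|A|) * N / 4 ≤ (x : ℝ) ^ (-|A|) * N / 4 * 2 ^ v := by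
      apply le_mul_of_one_le_right (by positivity)
      exact one_le_pow₀ (by norm_num)
    have h8 : (B2.card : ℝ) * 2 ^ v ≤ (x : ℝ) ^ (-|A|) * N / 2 * 2 ^ v := by
      have e6 : (x : ℝ) ^ (-|A|) * N / 2 * 2 ^ v = (x : ℝ) ^ (-|A|) * N / 4 * 2 ^ v + (x : ℝ) ^ (-|A|) * N / 4 * 2 ^ v := by ring
      rw [e6]
      linarith
    have h9 := le_of_mul_le_mul_right h8 h2v
    have h12 : (x : ℝ) ^ (-|A|) * N ≤ (x : ℝ) ^ (-A) * N := mul_le_mul_of_nonneg_right hAA (by linarith)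
    linarith
  linarith

end

end Pool.Agent.R429.TL
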