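import Mathlib
import Pool.Agent.R429.TL.WeakLaw

set_option autoImplicit false

/-! # A positive (even a tiny) proportion of the quadratic twists decides for almost all twists -/

namespace Pool.Agent.R429.TL

open Finset Pool.Agent.W406.TW Filter

noncomputable section

section
variable (P : ℕ → Finset ℕ) (U V : ℕ → Prop) (g : ℕ → ℝ) (Q : ℝ → ℝ → Prop)

/-- the mean -/
def StA : Prop := ∀ η : ℝ, 0 < η → ∀ᶠ x : ℕ in atTop, Q η ((tot (P x) U V : ℝ) / (2 * g x))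

/-- almost all twists, ranges -/
def StB : Prop := ∀ η : ℝ, 0 < η → ∃ C c : ℝ, 0 < c ∧ ∀ᶠ N : ℕ in atTop,
  (({D : ℤ | D ≠ 0 ∧ |D| ≤ N ∧ ∃ x : ℕ, (Real.log N) ^ C ≤ x ∧ (x : ℝ) ≤ (N : ℝ) ^ c ∧
    ¬ Q η ((cnt (P x) U V D : ℝ) / g x)}.ncard : ℕ) : ℝ) ≤ (N : ℝ) ^ (1 - c)

/-- all but a proportion `x ^ (-A)` of the twists -/
def StC : Prop := ∀ η : ℝ, 0 < η → ∀ A : ℝ, ∀ᶠ x : ℕ in atTop, ∀ᶠ N : ℕ in atTop,
  (({D : ℤ | D ≠ 0 ∧ |D| ≤ N ∧ ¬ Q η ((cnt (P x) U V D : ℝ) / g x)}.ncard : ℕ) : ℝ) ≤ (x : ℝ) ^ (-A) * N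

/-- a proportion `x ^ (-A)` of the twists -/
def StD : Prop := ∀ η : ℝ, 0 < η → ∃ A : ℝ, ∀ᶠ x : ℕ in atTop, ∃ᶠ N : ℕ in atTop,
  (x : ℝ) ^ (-A) * N ≤ (({D : ℤ | D ≠ 0 ∧ |D| ≤ N ∧ Q η ((cnt (P x) U V D : ℝ) / g x)}.ncard : ℕ) : ℝ)

end

lemma fin_set (N : ℕ) (R : ℤ → Prop) : {D : ℤ | D ≠ 0 ∧ |D| ≤ N ∧ R D}.Finite := by
  apply (finite_toSet (Icc (-(N : ℤ)) N)).subset
  intro D hD
  exact mem_coe.2 (mem_Icc.2 (abs_le.1 hD.2.1))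

lemma ncard_all (N : ℕ) : ({D : ℤ | D ≠ 0 ∧ |D| ≤ N}.ncard : ℝ) = 2 * N := by
  have h1 : {D : ℤ | D ≠ 0 ∧ |D| ≤ N} = (((Icc (-(N : ℤ)) N).erase 0 : Finset ℤ) : Set ℤ) := by
    ext D
    rw [mem_coe, mem_erase, mem_Icc, Set.mem_setOf_eq, abs_le]
  rw [h1, Set.ncard_coe_finset, card_erase_of_mem (by rw [mem_Icc]; omega), Int.card_Icc]
  have : ((N : ℤ) + 1 - -(N : ℤ)).toNat - 1 = 2 * N := by omega
  rw [this]; push_cast; ring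

/-- The deviation in terms of the ratios to `g`. -/
lemma ratio {S n g η M : ℝ} (hg : 0 < g) (hM : M ≤ η * max S g) (h : |n - S / 2| ≤ M) :
    |n / g - S / (2 * g)| ≤ η * max (2 * (S / (2 * g))) 1 := by
  have h1 : n / g - S / (2 * g) = (n - S / 2) / g := by field_simp
  rw [h1, abs_div, abs_of_pos hg, div_le_iff₀ hg]
  have h2 : max (2 * (S / (2 * g))) 1 * g = max S g := by
    rw [max_mul_of_nonneg _ _ hg.le, one_mul]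
    congr 1
    field_simp
  rw [mul_assoc, h2]
  exact h.trans hM

/-- The law in ranges. -/
lemma rangeLaw (P : ℕ → Finset ℕ) (U V : ℕ → Prop) (g : ℕ → ℝ)
    (hP : ∀ x, ∀ p ∈ P x, p.Prime ∧ p ≠ 2 ∧ p ≤ x) (δ : ℝ) (hδ : 0 < δ) (hg : ∀ᶠ x : ℕ in atTop, (x : ℝ) ^ δ ≤ g x)
    (η : ℝ) (hη : 0 < η) : ∃ C c : ℝ, 0 < C ∧ 0 < c ∧ ∀ᶠ N : ℕ in atTop,
    (({D : ℤ | D ≠ 0 ∧ |D| ≤ N ∧ ∃ x : ℕ, (Real.log N) ^ C ≤ x ∧ (x : ℝ) ≤ (N : ℝ) ^ c ∧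
      ¬ |(cnt (P x) U V D : ℝ) / g x - (tot (P x) U V : ℝ) / (2 * g x)| ≤
        η * max (2 * ((tot (P x) U V : ℝ) / (2 * g x))) 1}.ncard : ℕ) : ℝ) ≤ (N : ℝ) ^ (1 - c) := by
  obtain ⟨C, c, hC, hc, N₀, h⟩ := law 0 (δ / 4) le_rfl (by positivity)
  have hev : ∀ᶠ x : ℕ in atTop, (x : ℝ) ^ δ ≤ g x ∧ 1 / η ≤ (x : ℝ) ^ (δ / 4) ∧ 1 ≤ x := by
    refine hg.and ((?_ : ∀ᶠ x : ℕ in atTop, 1 / η ≤ (x : ℝ) ^ (δ / 4)).and (eventually_ge_atTop 1))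
    exact ((tendsto_rpow_atTop (by positivity : 0 < δ / 4)).comp tendsto_natCast_atTop_atTop).eventually_ge_atTop _
  obtain ⟨x₁, hx₁⟩ := eventually_atTop.1 hev
  refine ⟨C, c, hC, hc, ?_⟩
  have hN : ∀ᶠ N : ℕ in atTop, (x₁ : ℝ) ≤ (Real.log N) ^ C :=
    ((tendsto_rpow_atTop hC).comp (Real.tendsto_log_atTop.comp tendsto_natCast_atTop_atTop)).eventually_ge_atTop _
  filter_upwards [hN, eventually_ge_atTop N₀] with N hN1 hN2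
  refine le_trans ?_ (h N hN2 Unit (fun _ => {()}) (fun x _ => P x) (fun _ => U) (fun _ => V) (fun x _ => by simp)
    (fun x _ _ => hP x))
  have hsub : ({D : ℤ | D ≠ 0 ∧ |D| ≤ N ∧ ∃ x : ℕ, (Real.log N) ^ C ≤ x ∧ (x : ℝ) ≤ (N : ℝ) ^ c ∧
      ¬ |(cnt (P x) U V D : ℝ) / g x - (tot (P x) U V : ℝ) / (2 * g x)| ≤
        η * max (2 * ((tot (P x) U V : ℝ) / (2 * g x))) 1}).ncard ≤ _ :=
    Set.ncard_le_ncard (t := {D : ℤ | D ≠ 0 ∧ |D| ≤ N ∧ ∃ x : ℕ, (Real.log N) ^ C ≤ x ∧ (x : ℝ) ≤ (N : ℝ) ^ c ∧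
          ∃ l ∈ ({()} : Finset Unit), √(tot (P x) U V : ℝ) * (x : ℝ) ^ (δ / 4) <
            |(cnt (P x) U V D : ℝ) - (tot (P x) U V : ℝ) / 2|}) ?_ (fin_set N _)
  · exact_mod_cast hsub
  rintro D ⟨hD0, hDN, x, hx1, hx2, hx3⟩
  refine ⟨hD0, hDN, x, hx1, hx2, (), by simp, ?_⟩
  by_contra hcon
  rw [not_lt] at hcon
  apply hx3
  obtain ⟨hgx, hxη, hx⟩ := hx₁ x (by exact_mod_cast hN1.trans hx1)
  have hxr : (1 : ℝ) ≤ x := by exact_mod_cast hx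
  have hx0 : (0 : ℝ) < x := by linarith
  have hg0 : 0 < g x := lt_of_lt_of_le (by positivity) hgx
  refine ratio hg0 ?_ hcon
  obtain ⟨M, hM⟩ : ∃ M : ℝ, M = max (tot (P x) U V : ℝ) (g x) := ⟨_, rfl⟩
  rw [← hM]
  have hM1 : (tot (P x) U V : ℝ) ≤ M := hM ▸ le_max_left _ _
  have hM2 : (x : ℝ) ^ δ ≤ M := hgx.trans (hM ▸ le_max_right _ _)
  have hM0 : 0 < M := lt_of_lt_of_le (by positivity) hM2
  have h1 : (x : ℝ) ^ (δ / 2) ≤ √M := by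
    apply Real.le_sqrt_of_sq_le
    rw [← Real.rpow_natCast, ← Real.rpow_mul hx0.le]
    refine le_trans (le_of_eq ?_) hM2
    congr 1; push_cast; ring
  have h2 : (x : ℝ) ^ (δ / 4) ≤ η * (x : ℝ) ^ (δ / 2) := by
    have e1 : (x : ℝ) ^ (δ / 2) = (x : ℝ) ^ (δ / 4) * (x : ℝ) ^ (δ / 4) := by
      rw [← Real.rpow_add hx0]; congr 1; ring
    rw [e1, div_le_iff₀ hη] at *
    have : 0 < (x : ℝ) ^ (δ / 4) := by positivity
    nlinarith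
  calc √(tot (P x) U V : ℝ) * (x : ℝ) ^ (δ / 4) ≤ √M * (η * (x : ℝ) ^ (δ / 2)) := by
        apply mul_le_mul (Real.sqrt_le_sqrt hM1) h2 (by positivity) (Real.sqrt_nonneg _)
    _ ≤ √M * (η * √M) := by gcongr
    _ = η * M := by
        have := Real.mul_self_sqrt hM0.le
        nlinarith

/-- The law for `N → ∞`. -/
lemma weakLaw (P : ℕ → Finset ℕ) (U V : ℕ → Prop) (g : ℕ → ℝ)
    (hP : ∀ x, ∀ p ∈ P x, p.Prime ∧ p ≠ 2 ∧ p ≤ x) (δ : ℝ) (hδ : 0 < δ) (hg : ∀ᶠ x : ℕ in atTop, (x : ℝ) ^ δ ≤ g x)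
    (η : ℝ) (hη : 0 < η) (A : ℝ) : ∀ᶠ x : ℕ in atTop, ∀ᶠ N : ℕ in atTop,
    (({D : ℤ | D ≠ 0 ∧ |D| ≤ N ∧
      ¬ |(cnt (P x) U V D : ℝ) / g x - (tot (P x) U V : ℝ) / (2 * g x)| ≤
        η * max (2 * ((tot (P x) U V : ℝ) / (2 * g x))) 1}.ncard : ℕ) : ℝ) ≤ (x : ℝ) ^ (-A) * N := by
  classical
  obtain ⟨x₀, h⟩ := weak δ η A hδ hη
  filter_upwards [hg, eventually_ge_atTop x₀, eventually_ge_atTop 1] with x hgx hx hx1
  obtain ⟨N₁, hN₁⟩ := h x hx (P x) U V (hP x)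
  filter_upwards [eventually_ge_atTop N₁] with N hN
  refine le_trans ?_ (hN₁ N hN)
  rw [← Set.ncard_coe_finset]
  have hx0 : (0 : ℝ) < x := by exact_mod_cast hx1
  have hg0 : 0 < g x := lt_of_lt_of_le (by positivity) hgx
  have hsub : ({D : ℤ | D ≠ 0 ∧ |D| ≤ N ∧
      ¬ |(cnt (P x) U V D : ℝ) / g x - (tot (P x) U V : ℝ) / (2 * g x)| ≤
        η * max (2 * ((tot (P x) U V : ℝ) / (2 * g x))) 1}).ncard ≤ _ :=
    Set.ncard_le_ncard (t := (((Icc (-(N : ℤ)) N).filter (fun D => η * max (tot (P x) U V : ℝ) ((x : ℝ) ^ δ) <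
        |(cnt (P x) U V D : ℝ) - (tot (P x) U V : ℝ) / 2|) : Finset ℤ) : Set ℤ)) ?_ (finite_toSet _)
  · exact_mod_cast hsub
  rintro D ⟨_, hDN, hx3⟩
  rw [mem_coe, mem_filter]
  refine ⟨mem_Icc.2 (abs_le.1 hDN), ?_⟩
  by_contra hcon
  rw [not_lt] at hcon
  apply hx3
  refine ratio hg0 ?_ hcon
  gcongr

theorem tfae (P : ℕ → Finset ℕ) (U V : ℕ → Prop) (g : ℕ → ℝ) (Q : ℝ → ℝ → Prop)
    (hP : ∀ x, ∀ p ∈ P x, p.Prime ∧ p ≠ 2 ∧ p ≤ x) (δ : ℝ) (hδ : 0 < δ) (hg : ∀ᶠ x : ℕ in atTop, (x : ℝ) ^ δ ≤ g x)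
    (H1 : ∀ η : ℝ, 0 < η → ∃ η' : ℝ, 0 < η' ∧ ∀ σ ν : ℝ, 0 ≤ σ → 0 ≤ ν → |ν - σ| ≤ η' * max (2 * σ) 1 → Q η' σ → Q η ν)
    (H2 : ∀ η : ℝ, 0 < η → ∃ η' : ℝ, 0 < η' ∧ ∀ σ ν : ℝ, 0 ≤ σ → 0 ≤ ν → |ν - σ| ≤ η' * max (2 * σ) 1 → Q η' ν → Q η σ) :
    [StA P U V g Q, StB P U V g Q, StC P U V g Q, StD P U V g Q].TFAE := by
  classical
  have hg0 : ∀ᶠ x : ℕ in atTop, 0 < g x := by
    filter_upwards [hg, eventually_ge_atTop 1] with x hgx hx1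
    have hx0 : (0 : ℝ) < x := by exact_mod_cast hx1
    exact lt_of_lt_of_le (by positivity) hgx
  tfae_have 1 → 2 := by
    intro hA η hη
    obtain ⟨η', hη', hQ⟩ := H1 η hη
    obtain ⟨C, c, hC, hc, hl⟩ := rangeLaw P U V g hP δ hδ hg η' hη'
    refine ⟨C, c, hc, ?_⟩
    obtain ⟨x₁, hx₁⟩ := eventually_atTop.1 ((hA η' hη').and hg0)
    have hN : ∀ᶠ N : ℕ in atTop, (x₁ : ℝ) ≤ (Real.log N) ^ C :=
      ((tendsto_rpow_atTop hC).comp (Real.tendsto_log_atTop.comp tendsto_natCast_atTop_atTop)).eventually_ge_atTop _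
    filter_upwards [hl, hN] with N hl1 hN1
    refine le_trans ?_ hl1
    have := Set.ncard_le_ncard (s := {D : ℤ | D ≠ 0 ∧ |D| ≤ N ∧ ∃ x : ℕ, (Real.log N) ^ C ≤ x ∧ (x : ℝ) ≤ (N : ℝ) ^ c ∧
      ¬ Q η ((cnt (P x) U V D : ℝ) / g x)}) (t := {D : ℤ | D ≠ 0 ∧ |D| ≤ N ∧ ∃ x : ℕ, (Real.log N) ^ C ≤ x ∧
      (x : ℝ) ≤ (N : ℝ) ^ c ∧ ¬ |(cnt (P x) U V D : ℝ) / g x - (tot (P x) U V : ℝ) / (2 * g x)| ≤
        η' * max (2 * ((tot (P x) U V : ℝ) / (2 * g x))) 1}) ?_ (fin_set N _)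
    · exact_mod_cast this
    rintro D ⟨hD0, hDN, x, hx1, hx2, hx3⟩
    refine ⟨hD0, hDN, x, hx1, hx2, fun hcon => hx3 ?_⟩
    obtain ⟨h1, h2⟩ := hx₁ x (by exact_mod_cast hN1.trans hx1)
    exact hQ _ _ (by positivity) (by positivity) hcon h1
  tfae_have 1 → 3 := by
    intro hA η hη A
    obtain ⟨η', hη', hQ⟩ := H1 η hη
    filter_upwards [weakLaw P U V g hP δ hδ hg η' hη' A, hA η' hη', hg0] with x h1 h2 h3
    filter_upwards [h1] with N hN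
    refine le_trans ?_ hN
    have := Set.ncard_le_ncard (s := {D : ℤ | D ≠ 0 ∧ |D| ≤ N ∧ ¬ Q η ((cnt (P x) U V D : ℝ) / g x)})
      (t := {D : ℤ | D ≠ 0 ∧ |D| ≤ N ∧ ¬ |(cnt (P x) U V D : ℝ) / g x - (tot (P x) U V : ℝ) / (2 * g x)| ≤
        η' * max (2 * ((tot (P x) U V : ℝ) / (2 * g x))) 1}) ?_ (fin_set N _)
    · exact_mod_cast this
    rintro D ⟨hD0, hDN, hx3⟩
    exact ⟨hD0, hDN, fun hcon => hx3 (hQ _ _ (by positivity) (by positivity) hcon h2)⟩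
  tfae_have 3 → 4 := by
    intro hC η hη
    refine ⟨1, ?_⟩
    filter_upwards [hC η hη 1, eventually_ge_atTop 1] with x hx hx1
    apply Eventually.frequently
    filter_upwards [hx] with N hN
    have hx0 : (1 : ℝ) ≤ x := by exact_mod_cast hx1
    have h1 : (x : ℝ) ^ (-1 : ℝ) ≤ 1 := Real.rpow_le_one_of_one_le_of_nonpos hx0 (by norm_num)
    have h2 : {D : ℤ | D ≠ 0 ∧ |D| ≤ N} ⊆ {D : ℤ | D ≠ 0 ∧ |D| ≤ N ∧ Q η ((cnt (P x) U V D : ℝ) / g x)} ∪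
        {D : ℤ | D ≠ 0 ∧ |D| ≤ N ∧ ¬ Q η ((cnt (P x) U V D : ℝ) / g x)} := by
      rintro D ⟨h3, h4⟩
      by_cases h5 : Q η ((cnt (P x) U V D : ℝ) / g x)
      · left; exact ⟨h3, h4, h5⟩
      · right; exact ⟨h3, h4, h5⟩
    have h3 := (Set.ncard_le_ncard h2 ((fin_set N _).union (fin_set N _))).trans (Set.ncard_union_le _ _)
    have h4 : (2 : ℝ) * N ≤ (({D : ℤ | D ≠ 0 ∧ |D| ≤ N ∧ Q η ((cnt (P x) U V D : ℝ) / g x)}.ncard : ℕ) : ℝ) +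
        (({D : ℤ | D ≠ 0 ∧ |D| ≤ N ∧ ¬ Q η ((cnt (P x) U V D : ℝ) / g x)}.ncard : ℕ) : ℝ) := by
      rw [← ncard_all N]
      exact_mod_cast h3
    have h5 : (0 : ℝ) ≤ N := Nat.cast_nonneg _
    nlinarith
  tfae_have 4 → 1 := by
    intro hD η hη
    obtain ⟨η', hη', hQ⟩ := H2 η hη
    obtain ⟨A, hA⟩ := hD η' hη'
    filter_upwards [weakLaw P U V g hP δ hδ hg η' hη' (A + 1), hA, hg0, eventually_gt_atTop 1] with x h1 h2 h3 hx1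
    obtain ⟨N, hN1, hN2, hN0⟩ := (h2.and_eventually (h1.and (eventually_ge_atTop 1))).exists
    have hx0 : (1 : ℝ) < x := by exact_mod_cast hx1
    have hNr : (1 : ℝ) ≤ N := by exact_mod_cast hN0
    by_contra hcon
    have hsub : {D : ℤ | D ≠ 0 ∧ |D| ≤ N ∧ Q η' ((cnt (P x) U V D : ℝ) / g x)} ⊆
        {D : ℤ | D ≠ 0 ∧ |D| ≤ N ∧ ¬ |(cnt (P x) U V D : ℝ) / g x - (tot (P x) U V : ℝ) / (2 * g x)| ≤
        η' * max (2 * ((tot (P x) U V : ℝ) / (2 * g x))) 1} := by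
      rintro D ⟨h4, h5, h6⟩
      exact ⟨h4, h5, fun h7 => hcon (hQ _ _ (by positivity) (by positivity) h7 h6)⟩
    have h4 := Set.ncard_le_ncard hsub (fin_set N _)
    have h5 : (x : ℝ) ^ (-A) * N ≤ (x : ℝ) ^ (-(A + 1)) * N := by
      refine hN1.trans (le_trans ?_ hN2)
      exact_mod_cast h4
    have h6 : (x : ℝ) ^ (-(A + 1)) < (x : ℝ) ^ (-A) := Real.rpow_lt_rpow_of_exponent_lt hx0 (by linarith)
    nlinarith
  tfae_have 2 → 1 := by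
    intro hB η hη
    obtain ⟨η', hη', hQ⟩ := H2 η hη
    obtain ⟨C₁, c₁, hc₁, hb⟩ := hB η' hη'
    obtain ⟨C₂, c₂, hC₂, hc₂, hl⟩ := rangeLaw P U V g hP δ hδ hg η' hη'
    obtain ⟨c, hc⟩ : ∃ c : ℝ, c = min c₁ c₂ := ⟨_, rfl⟩
    have hc0 : 0 < c := hc ▸ lt_min hc₁ hc₂
    have hcc1 : c ≤ c₁ := hc ▸ min_le_left _ _
    have hcc2 : c ≤ c₂ := hc ▸ min_le_right _ _
    obtain ⟨C, hC⟩ : ∃ C : ℝ, C = max C₁ C₂ := ⟨_, rfl⟩
    have hCC1 : C₁ ≤ C := hC ▸ le_max_left _ _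
    have hCC2 : C₂ ≤ C := hC ▸ le_max_right _ _
    have hC0 : 0 < C := lt_of_lt_of_le hC₂ hCC2
    -- the choice of `N`
    have hT : Tendsto (fun x : ℕ => ⌈(x : ℝ) ^ (1 / c)⌉₊) atTop atTop :=
      tendsto_nat_ceil_atTop.comp ((tendsto_rpow_atTop (by positivity : 0 < 1 / c)).comp tendsto_natCast_atTop_atTop)
    have hlog : ∀ᶠ N : ℕ in atTop, 1 ≤ Real.log N ∧ 2 < (N : ℝ) ^ c ∧ (Real.log N) ^ C * 2 ^ c ≤ (N : ℝ) ^ c := by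
      have h1 : ∀ᶠ N : ℕ in atTop, 1 ≤ Real.log N :=
        (Real.tendsto_log_atTop.comp tendsto_natCast_atTop_atTop).eventually_ge_atTop _
      have h2 : ∀ᶠ N : ℕ in atTop, 2 < (N : ℝ) ^ c :=
        ((tendsto_rpow_atTop hc0).comp tendsto_natCast_atTop_atTop).eventually_gt_atTop _
      have h3 : ∀ᶠ N : ℕ in atTop, (Real.log N) ^ C * 2 ^ c ≤ (N : ℝ) ^ c := by
        have h4 := (isLittleO_log_rpow_rpow_atTop C hc0).comp_tendsto (tendsto_natCast_atTop_atTop (R := ℝ))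
        have h5 := h4.bound (c := 1 / 2 ^ c) (by positivity)
        filter_upwards [h5, h1, eventually_ge_atTop 1] with N h6 h7 h8
        simp only [Function.comp_apply] at h6
        rw [Real.norm_of_nonneg (by positivity), Real.norm_of_nonneg (by positivity), one_div, inv_mul_eq_div,
          le_div_iff₀ (by positivity)] at h6
        exact h6
      exact h1.and (h2.and h3)
    filter_upwards [hT.eventually hb, hT.eventually hl, hT.eventually hlog, hg0, eventually_ge_atTop 1] with x h1 h2 h3 h4 hx1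
    obtain ⟨N, hN⟩ : ∃ N : ℕ, N = ⌈(x : ℝ) ^ (1 / c)⌉₊ := ⟨_, rfl⟩
    rw [← hN] at h1 h2 h3
    obtain ⟨hL1, hNc, hLC⟩ := h3
    have hx0 : (1 : ℝ) ≤ x := by exact_mod_cast hx1
    have hN1 : (x : ℝ) ^ (1 / c) ≤ N := hN ▸ Nat.le_ceil _
    have hN0 : (1 : ℝ) ≤ N := (Real.one_le_rpow hx0 (by positivity)).trans hN1
    have hN2 : (N : ℝ) ≤ 2 * (x : ℝ) ^ (1 / c) := by
      have h5 : (N : ℝ) < (x : ℝ) ^ (1 / c) + 1 := hN ▸ Nat.ceil_lt_add_one (by positivity)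
      have h6 : 1 ≤ (x : ℝ) ^ (1 / c) := Real.one_le_rpow hx0 (by positivity)
      linarith
    have hxN : (x : ℝ) ≤ (N : ℝ) ^ c := by
      calc (x : ℝ) = ((x : ℝ) ^ (1 / c)) ^ c := by
            rw [← Real.rpow_mul (by linarith), one_div_mul_cancel hc0.ne', Real.rpow_one]
        _ ≤ _ := Real.rpow_le_rpow (by positivity) hN1 hc0.le
    have hNx : (N : ℝ) ^ c ≤ 2 ^ c * x := by
      calc (N : ℝ) ^ c ≤ (2 * (x : ℝ) ^ (1 / c)) ^ c := Real.rpow_le_rpow (by positivity) hN2 hc0.le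
        _ = 2 ^ c * x := by
            rw [Real.mul_rpow (by norm_num) (by positivity), ← Real.rpow_mul (by linarith), one_div_mul_cancel hc0.ne',
              Real.rpow_one]
    have hLx : (Real.log N) ^ C ≤ x := by
      have h5 : (Real.log N) ^ C * 2 ^ c ≤ x * 2 ^ c := by linarith
      exact le_of_mul_le_mul_right h5 (by positivity)
    by_contra hcon
    have hsub : {D : ℤ | D ≠ 0 ∧ |D| ≤ N} ⊆ {D : ℤ | D ≠ 0 ∧ |D| ≤ N ∧ ∃ x : ℕ, (Real.log N) ^ C₁ ≤ x ∧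
        (x : ℝ) ≤ (N : ℝ) ^ c₁ ∧ ¬ Q η' ((cnt (P x) U V D : ℝ) / g x)} ∪
        {D : ℤ | D ≠ 0 ∧ |D| ≤ N ∧ ∃ x : ℕ, (Real.log N) ^ C₂ ≤ x ∧ (x : ℝ) ≤ (N : ℝ) ^ c₂ ∧
      ¬ |(cnt (P x) U V D : ℝ) / g x - (tot (P x) U V : ℝ) / (2 * g x)| ≤
        η' * max (2 * ((tot (P x) U V : ℝ) / (2 * g x))) 1} := by
      rintro D ⟨h5, h6⟩
      by_cases h7 : Q η' ((cnt (P x) U V D : ℝ) / g x)
      · right
        refine ⟨h5, h6, x, (Real.rpow_le_rpow_of_exponent_le hL1 hCC2).trans hLx,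
          hxN.trans (Real.rpow_le_rpow_of_exponent_le hN0 hcc2), fun h8 => hcon (hQ _ _ (by positivity) (by positivity) h8 h7)⟩
      · left
        exact ⟨h5, h6, x, (Real.rpow_le_rpow_of_exponent_le hL1 hCC1).trans hLx,
          hxN.trans (Real.rpow_le_rpow_of_exponent_le hN0 hcc1), h7⟩
    have h5 := (Set.ncard_le_ncard hsub ((fin_set N _).union (fin_set N _))).trans (Set.ncard_union_le _ _)
    have h6 : (2 : ℝ) * N ≤ (N : ℝ) ^ (1 - c₁) + (N : ℝ) ^ (1 - c₂) := by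
      rw [← ncard_all N]
      refine le_trans ?_ (add_le_add h1 h2)
      exact_mod_cast h5
    have h7 : (N : ℝ) ^ (1 - c₁) ≤ (N : ℝ) ^ (1 - c) := Real.rpow_le_rpow_of_exponent_le hN0 (by linarith)
    have h8 : (N : ℝ) ^ (1 - c₂) ≤ (N : ℝ) ^ (1 - c) := Real.rpow_le_rpow_of_exponent_le hN0 (by linarith)
    have h9 : (N : ℝ) ^ (1 - c) * (N : ℝ) ^ c = N := by
      rw [← Real.rpow_add (by linarith)]; simp
    have h10 : 0 < (N : ℝ) ^ (1 - c) := by positivity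
    nlinarith
  tfae_finish

/-- upper bounds -/
lemma upper_H1 (K : ℝ) (hK : 0 ≤ K) : ∀ η : ℝ, 0 < η → ∃ η' : ℝ, 0 < η' ∧ ∀ σ ν : ℝ, 0 ≤ σ → 0 ≤ ν →
    |ν - σ| ≤ η' * max (2 * σ) 1 → σ ≤ K + η' → ν ≤ K + η := by
  intro η hη
  refine ⟨min 1 (η / (2 * K + 4)), lt_min one_pos (by positivity), fun σ ν hσ hν h1 h2 => ?_⟩
  obtain ⟨e, he⟩ : ∃ e, e = min 1 (η / (2 * K + 4)) := ⟨_, rfl⟩
  rw [← he] at h1 h2
  have he1 : e ≤ 1 := he ▸ min_le_left _ _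
  have he2 : e ≤ η / (2 * K + 4) := he ▸ min_le_right _ _
  have he0 : 0 < e := he ▸ lt_min one_pos (by positivity)
  rw [le_div_iff₀ (by positivity)] at he2
  have h3 : max (2 * σ) 1 ≤ 2 * K + 3 := max_le (by linarith) (by linarith)
  have h4 := (abs_le.1 h1).2
  nlinarith [mul_le_mul_of_nonneg_left h3 he0.le]

lemma upper_H2 (K : ℝ) (hK : 0 ≤ K) : ∀ η : ℝ, 0 < η → ∃ η' : ℝ, 0 < η' ∧ ∀ σ ν : ℝ, 0 ≤ σ → 0 ≤ ν →
    |ν - σ| ≤ η' * max (2 * σ) 1 → ν ≤ K + η' → σ ≤ K + η := by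
  intro η hη
  refine ⟨min (1 / 4) (η / (4 * K + 8)), lt_min (by norm_num) (by positivity), fun σ ν hσ hν h1 h2 => ?_⟩
  obtain ⟨e, he⟩ : ∃ e, e = min (1 / 4) (η / (4 * K + 8)) := ⟨_, rfl⟩
  rw [← he] at h1 h2
  have he1 : e ≤ 1 / 4 := he ▸ min_le_left _ _
  have he2 : e ≤ η / (4 * K + 8) := he ▸ min_le_right _ _
  have he0 : 0 < e := he ▸ lt_min (by norm_num) (by positivity)
  rw [le_div_iff₀ (by positivity)] at he2
  have h3 : max (2 * σ) 1 ≤ 2 * σ + 1 := max_le (by linarith) (by linarith)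
  have h4 := (abs_le.1 h1).1
  have h5 : σ ≤ K + e + e * (2 * σ + 1) := by nlinarith [mul_le_mul_of_nonneg_left h3 he0.le]
  have h6 : σ ≤ 2 * K + 2 := by nlinarith
  nlinarith [mul_le_mul_of_nonneg_left h6 he0.le]

lemma asy_H1 (K : ℝ) (hK : 0 ≤ K) : ∀ η : ℝ, 0 < η → ∃ η' : ℝ, 0 < η' ∧ ∀ σ ν : ℝ, 0 ≤ σ → 0 ≤ ν →
    |ν - σ| ≤ η' * max (2 * σ) 1 → |σ - K| ≤ η' → |ν - K| ≤ η := by
  intro η hη
  refine ⟨min 1 (η / (2 * K + 4)), lt_min one_pos (by positivity), fun σ ν hσ hν h1 h2 => ?_⟩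
  obtain ⟨e, he⟩ : ∃ e, e = min 1 (η / (2 * K + 4)) := ⟨_, rfl⟩
  rw [← he] at h1 h2
  have he1 : e ≤ 1 := he ▸ min_le_left _ _
  have he2 : e ≤ η / (2 * K + 4) := he ▸ min_le_right _ _
  have he0 : 0 < e := he ▸ lt_min one_pos (by positivity)
  rw [le_div_iff₀ (by positivity)] at he2
  obtain ⟨h5, h6⟩ := abs_le.1 h2
  have h3 : max (2 * σ) 1 ≤ 2 * K + 3 := max_le (by linarith) (by linarith)
  obtain ⟨h7, h8⟩ := abs_le.1 h1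
  have h9 := mul_le_mul_of_nonneg_left h3 he0.le
  rw [abs_le]
  constructor <;> nlinarith

lemma asy_H2 (K : ℝ) (hK : 0 ≤ K) : ∀ η : ℝ, 0 < η → ∃ η' : ℝ, 0 < η' ∧ ∀ σ ν : ℝ, 0 ≤ σ → 0 ≤ ν →
    |ν - σ| ≤ η' * max (2 * σ) 1 → |ν - K| ≤ η' → |σ - K| ≤ η := by
  intro η hη
  refine ⟨min (1 / 4) (η / (4 * K + 8)), lt_min (by norm_num) (by positivity), fun σ ν hσ hν h1 h2 => ?_⟩
  obtain ⟨e, he⟩ : ∃ e, e = min (1 / 4) (η / (4 * K + 8)) := ⟨_, rfl⟩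
  rw [← he] at h1 h2
  have he1 : e ≤ 1 / 4 := he ▸ min_le_left _ _
  have he2 : e ≤ η / (4 * K + 8) := he ▸ min_le_right _ _
  have he0 : 0 < e := he ▸ lt_min (by norm_num) (by positivity)
  rw [le_div_iff₀ (by positivity)] at he2
  obtain ⟨h7, h8⟩ := abs_le.1 h1
  obtain ⟨h9, h10⟩ := abs_le.1 h2
  have h3 : max (2 * σ) 1 ≤ 2 * σ + 1 := max_le (by linarith) (by linarith)
  have h11 := mul_le_mul_of_nonneg_left h3 he0.le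
  have h6 : σ ≤ 2 * K + 2 := by nlinarith
  have h12 := mul_le_mul_of_nonneg_left h6 he0.le
  rw [abs_le]
  constructor <;> nlinarith

end

end Pool.Agent.R429.TL
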