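import Mathlib
import Pool.Agent.R429.TL.Equiv

set_option autoImplicit false

/-! # The equivalences for families of twists, abstract form -/

namespace Pool.Agent.R429.TLA

open Finset Filter
open Pool.Agent.R429.TL (fin_set ncard_all)

noncomputable section

/-- `S K η`: statement on the object itself; `T D K η`: statement on the twist by `D`; `Dev D K η`: they are close. -/
theorem tfae (S : ℕ → ℝ → Prop) (T Dev : ℤ → ℕ → ℝ → Prop)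
    (H1 : ∀ η : ℝ, 0 < η → ∃ η' : ℝ, 0 < η' ∧ ∀ᶠ K : ℕ in atTop, ∀ D, Dev D K η' → S K η' → T D K η)
    (H2 : ∀ η : ℝ, 0 < η → ∃ η' : ℝ, 0 < η' ∧ ∀ᶠ K : ℕ in atTop, ∀ D, Dev D K η' → T D K η' → S K η)
    (hlaw : ∀ η : ℝ, 0 < η → ∃ C c : ℝ, 0 < C ∧ 0 < c ∧ ∀ᶠ N : ℕ in atTop,
      (({D : ℤ | D ≠ 0 ∧ |D| ≤ N ∧ ∃ x : ℕ, (Real.log N) ^ C ≤ x ∧ (x : ℝ) ≤ (N : ℝ) ^ c ∧ ¬ Dev D x η}.ncard : ℕ) : ℝ) ≤
        (N : ℝ) ^ (1 - c))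
    (hweak : ∀ η : ℝ, 0 < η → ∀ A : ℝ, ∀ᶠ x : ℕ in atTop, ∀ᶠ N : ℕ in atTop,
      (({D : ℤ | D ≠ 0 ∧ |D| ≤ N ∧ ¬ Dev D x η}.ncard : ℕ) : ℝ) ≤ (x : ℝ) ^ (-A) * N) :
    [∀ η : ℝ, 0 < η → ∀ᶠ x : ℕ in atTop, S x η,
     ∀ η : ℝ, 0 < η → ∃ C c : ℝ, 0 < c ∧ ∀ᶠ N : ℕ in atTop,
      (({D : ℤ | D ≠ 0 ∧ |D| ≤ N ∧ ∃ x : ℕ, (Real.log N) ^ C ≤ x ∧ (x : ℝ) ≤ (N : ℝ) ^ c ∧ ¬ T D x η}.ncard : ℕ) : ℝ) ≤
        (N : ℝ) ^ (1 - c),
     ∀ η : ℝ, 0 < η → ∀ A : ℝ, ∀ᶠ x : ℕ in atTop, ∀ᶠ N : ℕ in atTop,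
      (({D : ℤ | D ≠ 0 ∧ |D| ≤ N ∧ ¬ T D x η}.ncard : ℕ) : ℝ) ≤ (x : ℝ) ^ (-A) * N,
     ∀ η : ℝ, 0 < η → ∃ A : ℝ, ∀ᶠ x : ℕ in atTop, ∃ᶠ N : ℕ in atTop,
      (x : ℝ) ^ (-A) * N ≤ (({D : ℤ | D ≠ 0 ∧ |D| ≤ N ∧ T D x η}.ncard : ℕ) : ℝ)].TFAE := by
  classical
  tfae_have 1 → 2 := by
    intro hA η hη
    obtain ⟨η', hη', hQ⟩ := H1 η hη
    obtain ⟨C, c, hC, hc, hl⟩ := hlaw η' hη'
    refine ⟨C, c, hc, ?_⟩
    obtain ⟨x₁, hx₁⟩ := eventually_atTop.1 ((hA η' hη').and hQ)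
    have hN : ∀ᶠ N : ℕ in atTop, (x₁ : ℝ) ≤ (Real.log N) ^ C :=
      ((tendsto_rpow_atTop hC).comp (Real.tendsto_log_atTop.comp tendsto_natCast_atTop_atTop)).eventually_ge_atTop _
    filter_upwards [hl, hN] with N hl1 hN1
    refine le_trans ?_ hl1
    have := Set.ncard_le_ncard (s := {D : ℤ | D ≠ 0 ∧ |D| ≤ N ∧ ∃ x : ℕ, (Real.log N) ^ C ≤ x ∧ (x : ℝ) ≤ (N : ℝ) ^ c ∧
      ¬ T D x η}) (t := {D : ℤ | D ≠ 0 ∧ |D| ≤ N ∧ ∃ x : ℕ, (Real.log N) ^ C ≤ x ∧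
      (x : ℝ) ≤ (N : ℝ) ^ c ∧ ¬ Dev D x η'}) ?_ (fin_set N _)
    · exact_mod_cast this
    rintro D ⟨hD0, hDN, x, hx1, hx2, hx3⟩
    refine ⟨hD0, hDN, x, hx1, hx2, fun hcon => hx3 ?_⟩
    obtain ⟨h1, h2⟩ := hx₁ x (by exact_mod_cast hN1.trans hx1)
    exact h2 D hcon h1
  tfae_have 1 → 3 := by
    intro hA η hη A
    obtain ⟨η', hη', hQ⟩ := H1 η hη
    filter_upwards [hweak η' hη' A, hA η' hη', hQ] with x h1 h2 h3
    filter_upwards [h1] with N hN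
    refine le_trans ?_ hN
    have := Set.ncard_le_ncard (s := {D : ℤ | D ≠ 0 ∧ |D| ≤ N ∧ ¬ T D x η})
      (t := {D : ℤ | D ≠ 0 ∧ |D| ≤ N ∧ ¬ Dev D x η'}) ?_ (fin_set N _)
    · exact_mod_cast this
    rintro D ⟨hD0, hDN, hx3⟩
    exact ⟨hD0, hDN, fun hcon => hx3 (h3 D hcon h2)⟩
  tfae_have 3 → 4 := by
    intro hC η hη
    refine ⟨1, ?_⟩
    filter_upwards [hC η hη 1, eventually_ge_atTop 1] with x hx hx1
    apply Eventually.frequently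
    filter_upwards [hx] with N hN
    have hx0 : (1 : ℝ) ≤ x := by exact_mod_cast hx1
    have h1 : (x : ℝ) ^ (-1 : ℝ) ≤ 1 := Real.rpow_le_one_of_one_le_of_nonpos hx0 (by norm_num)
    have h2 : {D : ℤ | D ≠ 0 ∧ |D| ≤ N} ⊆ {D : ℤ | D ≠ 0 ∧ |D| ≤ N ∧ T D x η} ∪
        {D : ℤ | D ≠ 0 ∧ |D| ≤ N ∧ ¬ T D x η} := by
      rintro D ⟨h3, h4⟩
      by_cases h5 : T D x η
      · left; exact ⟨h3, h4, h5⟩
      · right; exact ⟨h3, h4, h5⟩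
    have h3 := (Set.ncard_le_ncard h2 ((fin_set N _).union (fin_set N _))).trans (Set.ncard_union_le _ _)
    have h4 : (2 : ℝ) * N ≤ (({D : ℤ | D ≠ 0 ∧ |D| ≤ N ∧ T D x η}.ncard : ℕ) : ℝ) +
        (({D : ℤ | D ≠ 0 ∧ |D| ≤ N ∧ ¬ T D x η}.ncard : ℕ) : ℝ) := by
      rw [← ncard_all N]
      exact_mod_cast h3
    have h5 : (0 : ℝ) ≤ N := Nat.cast_nonneg _
    nlinarith
  tfae_have 4 → 1 := by
    intro hD η hη
    obtain ⟨η', hη', hQ⟩ := H2 η hη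
    obtain ⟨A, hA⟩ := hD η' hη'
    filter_upwards [hweak η' hη' (A + 1), hA, hQ, eventually_gt_atTop 1] with x h1 h2 h3 hx1
    obtain ⟨N, hN1, hN2, hN0⟩ := (h2.and_eventually (h1.and (eventually_ge_atTop 1))).exists
    have hx0 : (1 : ℝ) < x := by exact_mod_cast hx1
    have hNr : (1 : ℝ) ≤ N := by exact_mod_cast hN0
    by_contra hcon
    have hsub : {D : ℤ | D ≠ 0 ∧ |D| ≤ N ∧ T D x η'} ⊆ {D : ℤ | D ≠ 0 ∧ |D| ≤ N ∧ ¬ Dev D x η'} := by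
      rintro D ⟨h4, h5, h6⟩
      exact ⟨h4, h5, fun h7 => hcon (h3 D h7 h6)⟩
    have h4 := Set.ncard_le_ncard hsub (fin_set N _)
    have h5 : (x : ℝ) ^ (-A) * N ≤ (x : ℝ) ^ (-(A + 1)) * N := by
      refine hN1.trans (le_trans ?_ hN2)
      exact_mod_cast h4
    have h6 : (x : ℝ) ^ (-(A + 1)) < (x : ℝ) ^ (-A) := Real.rpow_lt_rpow_of_exponent_lt hx0 (by linarith)
    nlinarith
  tfae_have 2 → 1 := by
    intro hB η hη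
    obtain ⟨η', hη', hQ⟩ := H2 η hη
    obtain ⟨C₁, c₁, hc₁, hb⟩ := hB η' hη'
    obtain ⟨C₂, c₂, hC₂, hc₂, hl⟩ := hlaw η' hη'
    obtain ⟨c, hc⟩ : ∃ c : ℝ, c = min c₁ c₂ := ⟨_, rfl⟩
    have hc0 : 0 < c := hc ▸ lt_min hc₁ hc₂
    have hcc1 : c ≤ c₁ := hc ▸ min_le_left _ _
    have hcc2 : c ≤ c₂ := hc ▸ min_le_right _ _
    obtain ⟨C, hC⟩ : ∃ C : ℝ, C = max C₁ C₂ := ⟨_, rfl⟩
    have hCC1 : C₁ ≤ C := hC ▸ le_max_left _ _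
    have hCC2 : C₂ ≤ C := hC ▸ le_max_right _ _
    have hC0 : 0 < C := lt_of_lt_of_le hC₂ hCC2
    have hT : Tendsto (fun x : ℕ => ⌈(x : ℝ) ^ (1 / c)⌉₊) atTop atTop :=
      tendsto_nat_ceil_atTop.comp ((tendsto_rpow_atTop (by positivity : 0 < 1 / c)).comp tendsto_natCast_atTop_atTop)
    have hlog : ∀ᶠ N : ℕ in atTop, 1 ≤ Real.log N ∧ 2 < (N : ℝ) ^ c ∧ (Real.log N) ^ C * 2 ^ c ≤ (N : ℝ) ^ c := by
      have h1 : ∀ᶠ N : ℕ in atTop, 1 ≤ Real.log N :=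
        (Real.tendsto_log_atTop.comp tendsto_natCast_atTop_atTop).eventually_ge_atTop _
      have h2 : ∀ᶠ N : ℕ in atTop, 2 < (N : ℝ) ^ c :=
        ((tendsto_rpow_atTop hc0).comp tendsto_natCast_atTop_atTop).eventually_gt_atTop _
      have h3 : ∀ᶠ N : ℕ in atTop, (Real.log N) ^ C * 2 ^ c ≤ (N : ℝ) ^ c := by
        have h4 := (isLittleO_log_rpow_rpow_atTop C hc0).comp_tendsto (tendsto_natCast_atTop_atTop (R := ℝ))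
        have h5 := h4.bound (c := 1 / 2 ^ c) (by positivity)
        filter_upwards [h5, h1, eventually_ge_atTop 1] with N h6 h7 h8
        simp only [Function.comp_apply] at h6
        rw [Real.norm_of_nonneg (by positivity), Real.norm_of_nonneg (by positivity), one_div, inv_mul_eq_div,
          le_div_iff₀ (by positivity)] at h6
        exact h6
      exact h1.and (h2.and h3)
    filter_upwards [hT.eventually hb, hT.eventually hl, hT.eventually hlog, hQ, eventually_ge_atTop 1] with x h1 h2 h3 h4 hx1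
    obtain ⟨N, hN⟩ : ∃ N : ℕ, N = ⌈(x : ℝ) ^ (1 / c)⌉₊ := ⟨_, rfl⟩
    rw [← hN] at h1 h2 h3
    obtain ⟨hL1, hNc, hLC⟩ := h3
    have hx0 : (1 : ℝ) ≤ x := by exact_mod_cast hx1
    have hN1 : (x : ℝ) ^ (1 / c) ≤ N := hN ▸ Nat.le_ceil _
    have hN0 : (1 : ℝ) ≤ N := (Real.one_le_rpow hx0 (by positivity)).trans hN1
    have hN2 : (N : ℝ) ≤ 2 * (x : ℝ) ^ (1 / c) := by
      have h5 : (N : ℝ) < (x : ℝ) ^ (1 / c) + 1 := hN ▸ Nat.ceil_lt_add_one (by positivity)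
      have h6 : 1 ≤ (x : ℝ) ^ (1 / c) := Real.one_le_rpow hx0 (by positivity)
      linarith
    have hxN : (x : ℝ) ≤ (N : ℝ) ^ c := by
      calc (x : ℝ) = ((x : ℝ) ^ (1 / c)) ^ c := by
            rw [← Real.rpow_mul (by linarith), one_div_mul_cancel hc0.ne', Real.rpow_one]
        _ ≤ _ := Real.rpow_le_rpow (by positivity) hN1 hc0.le
    have hNx : (N : ℝ) ^ c ≤ 2 ^ c * x := by
      calc (N : ℝ) ^ c ≤ (2 * (x : ℝ) ^ (1 / c)) ^ c := Real.rpow_le_rpow (by positivity) hN2 hc0.le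
        _ = 2 ^ c * x := by
            rw [Real.mul_rpow (by norm_num) (by positivity), ← Real.rpow_mul (by linarith), one_div_mul_cancel hc0.ne',
              Real.rpow_one]
    have hLx : (Real.log N) ^ C ≤ x := by
      have h5 : (Real.log N) ^ C * 2 ^ c ≤ x * 2 ^ c := by linarith
      exact le_of_mul_le_mul_right h5 (by positivity)
    by_contra hcon
    have hsub : {D : ℤ | D ≠ 0 ∧ |D| ≤ N} ⊆ {D : ℤ | D ≠ 0 ∧ |D| ≤ N ∧ ∃ x : ℕ, (Real.log N) ^ C₁ ≤ x ∧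
        (x : ℝ) ≤ (N : ℝ) ^ c₁ ∧ ¬ T D x η'} ∪
        {D : ℤ | D ≠ 0 ∧ |D| ≤ N ∧ ∃ x : ℕ, (Real.log N) ^ C₂ ≤ x ∧ (x : ℝ) ≤ (N : ℝ) ^ c₂ ∧ ¬ Dev D x η'} := by
      rintro D ⟨h5, h6⟩
      by_cases h7 : T D x η'
      · right
        refine ⟨h5, h6, x, (Real.rpow_le_rpow_of_exponent_le hL1 hCC2).trans hLx,
          hxN.trans (Real.rpow_le_rpow_of_exponent_le hN0 hcc2), fun h8 => hcon (h4 D h8 h7)⟩
      · left
        exact ⟨h5, h6, x, (Real.rpow_le_rpow_of_exponent_le hL1 hCC1).trans hLx,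
          hxN.trans (Real.rpow_le_rpow_of_exponent_le hN0 hcc1), h7⟩
    have h5 := (Set.ncard_le_ncard hsub ((fin_set N _).union (fin_set N _))).trans (Set.ncard_union_le _ _)
    have h6 : (2 : ℝ) * N ≤ (N : ℝ) ^ (1 - c₁) + (N : ℝ) ^ (1 - c₂) := by
      rw [← ncard_all N]
      refine le_trans ?_ (add_le_add h1 h2)
      exact_mod_cast h5
    have h7 : (N : ℝ) ^ (1 - c₁) ≤ (N : ℝ) ^ (1 - c) := Real.rpow_le_rpow_of_exponent_le hN0 (by linarith)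
    have h8 : (N : ℝ) ^ (1 - c₂) ≤ (N : ℝ) ^ (1 - c) := Real.rpow_le_rpow_of_exponent_le hN0 (by linarith)
    have h9 : (N : ℝ) ^ (1 - c) * (N : ℝ) ^ c = N := by
      rw [← Real.rpow_add (by linarith)]; simp
    have h10 : 0 < (N : ℝ) ^ (1 - c) := by positivity
    nlinarith
  tfae_finish

end

end Pool.Agent.R429.TLA
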