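import Mathlib
import Pool.Agent.W406.TW.Fin2
import Pool.Agent.R429.TL.WeakLaw

set_option autoImplicit false

/-! # Consecutive Frobenius angles of the quadratic twists by all `|D| ≤ N`, `N → ∞` -/

namespace Pool.Agent.R429.TLC

open Finset Pool.Agent.W406.TW Filter
open Pool.Agent.R429.TL (many_div ev_exp)

open Classical in
/-- deterministic part -/
lemma total2 {s : ℕ} (x xD : ℕ → ℝ) (D : ℤ) (K : ℕ) (R : Fin s → Set ℝ)
    (hR : ∀ i, (R i).OrdConnected) (T : ℝ) (hT0 : 0 ≤ T)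
    (hx : ∀ k, 1 ≤ k → (jacobiSym D (pr k) = 1 → xD k = x k) ∧ (jacobiSym D (pr k) = -1 → xD k = 1 - x k))
    (hT : ∀ I : Finset (Fin s), I.Nonempty → ∀ ab : Fin s → ℕ × ℕ,
      (∀ i, (ab i).1 < 2 * (K + s) + 2 ∧ (ab i).2 < 2 * (K + s) + 2) →
      |SD (Ico 1 K) (wt x I ab) (nk I) D| ≤ T) :
    |(2 : ℝ) ^ s * (((range K).filter (fun k => ∀ i : Fin s, xD (k + i) ∈ R i)).card : ℝ) -
      ∑ J : Finset (Fin s), (((range K).filter (fun k => ∀ i : Fin s,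
        (if i ∈ J then 1 - x (k + i) else x (k + i)) ∈ R i)).card : ℝ)| ≤
      4 ^ s * T + 3 * 4 ^ s * ((((Ico 1 K).filter (fun k => ∃ i : Fin s, (pr (k + i) : ℤ) ∣ D)).card : ℝ) + 1) := by
  -- the intervals
  have htr : ∀ i : Fin s, ∃ a b : ℕ, a < 2 * (K + s) + 2 ∧ b < 2 * (K + s) + 2 ∧ ∀ j < K + s,
      (x j ∈ R i ↔ val x a ≤ x j ∧ x j ≤ val x b) ∧
      (1 - x j ∈ R i ↔ val x a ≤ 1 - x j ∧ 1 - x j ≤ val x b) := fun i => trace x (K + s) (R i) (hR i)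
  choose a b ha hb hab using htr
  set ab : Fin s → ℕ × ℕ := fun i => (a i, b i) with habd
  set L : ℕ → ℝ := fun k => (2 : ℝ) ^ s * ind (∀ i : Fin s, xD (k + i) ∈ R i) -
      ∑ J : Finset (Fin s), ind (∀ i : Fin s, (if i ∈ J then 1 - x (k + i) else x (k + i)) ∈ R i) with hL
  set G : ℕ → ℝ := fun k => ∑ I ∈ (univ : Finset (Finset (Fin s))).erase ∅,
      2 ^ s * (wt x I ab k * (jacobiSym D (nk I k) : ℝ)) with hG
  have hsum : (2 : ℝ) ^ s * (((range K).filter (fun k => ∀ i : Fin s, xD (k + i) ∈ R i)).card : ℝ) -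
      ∑ J : Finset (Fin s), (((range K).filter (fun k => ∀ i : Fin s,
        (if i ∈ J then 1 - x (k + i) else x (k + i)) ∈ R i)).card : ℝ) = ∑ k ∈ range K, L k := by
    rw [card_ind, mul_sum]
    simp_rw [card_ind]
    rw [sum_comm, ← sum_sub_distrib]
  rw [hsum]
  -- bounds for one term
  have h2s : (0 : ℝ) < 2 ^ s := by positivity
  have hLb : ∀ k, |L k| ≤ 2 * 4 ^ s := by
    intro k
    have h1 : 0 ≤ (2 : ℝ) ^ s * ind (∀ i : Fin s, xD (k + i) ∈ R i) := mul_nonneg h2s.le (ind_nonneg _)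
    have h2 : (2 : ℝ) ^ s * ind (∀ i : Fin s, xD (k + i) ∈ R i) ≤ 2 ^ s := by
      calc _ ≤ (2 : ℝ) ^ s * 1 := mul_le_mul_of_nonneg_left (ind_le _) h2s.le
        _ = 2 ^ s := mul_one _
    have h3 : 0 ≤ ∑ J : Finset (Fin s), ind (∀ i : Fin s, (if i ∈ J then 1 - x (k + i) else x (k + i)) ∈ R i) :=
      sum_nonneg fun _ _ => ind_nonneg _
    have h4 : ∑ J : Finset (Fin s), ind (∀ i : Fin s, (if i ∈ J then 1 - x (k + i) else x (k + i)) ∈ R i) ≤
        2 ^ s := by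
      calc _ ≤ ∑ _J : Finset (Fin s), (1 : ℝ) := sum_le_sum fun _ _ => ind_le _
        _ = 2 ^ s := by simp
    have h5 : (2 : ℝ) ^ s ≤ 4 ^ s := pow_le_pow_left₀ (by norm_num) (by norm_num) s
    rw [abs_le]
    constructor <;> simp only [hL] <;> linarith
  have hGb : ∀ k, |G k| ≤ 4 ^ s := by
    intro k
    simp only [hG]
    calc |∑ I ∈ (univ : Finset (Finset (Fin s))).erase ∅, 2 ^ s * (wt x I ab k * (jacobiSym D (nk I k) : ℝ))|
        ≤ ∑ I ∈ (univ : Finset (Finset (Fin s))).erase ∅, |2 ^ s * (wt x I ab k * (jacobiSym D (nk I k) : ℝ))| :=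
          abs_sum_le_sum_abs _ _
      _ ≤ ∑ I ∈ (univ : Finset (Finset (Fin s))).erase ∅, (2 : ℝ) ^ s := by
          apply sum_le_sum
          intro I _
          rw [abs_mul, abs_mul, abs_of_pos h2s]
          have h1 := wt_le x I ab k
          have h2 : |(jacobiSym D (nk I k) : ℝ)| ≤ 1 := by
            rw [← Int.cast_abs]; exact_mod_cast jac_abs D (nk I k)
          calc (2 : ℝ) ^ s * (|wt x I ab k| * |(jacobiSym D (nk I k) : ℝ)|) ≤ 2 ^ s * (1 * 1) := by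
                apply mul_le_mul_of_nonneg_left _ h2s.le
                exact mul_le_mul h1 h2 (abs_nonneg _) zero_le_one
            _ = 2 ^ s := by ring
      _ ≤ ∑ _I : Finset (Fin s), (2 : ℝ) ^ s :=
          sum_le_sum_of_subset_of_nonneg (erase_subset _ _) fun _ _ _ => h2s.le
      _ = 4 ^ s := by
          rw [sum_const, card_univ, Fintype.card_finset, Fintype.card_fin, nsmul_eq_mul]
          push_cast
          rw [← mul_pow]; norm_num
  rcases Nat.eq_zero_or_pos K with hK0 | hK0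
  · subst hK0
    rw [range_zero, sum_empty, abs_zero]
    positivity
  have hr : range K = insert 0 (Ico 1 K) := by
    ext k; simp only [mem_range, mem_insert, mem_Ico]; omega
  have h0 : (0 : ℕ) ∉ Ico 1 K := by simp
  rw [hr, sum_insert h0]
  set Bd := (Ico 1 K).filter (fun k => ∃ i : Fin s, (pr (k + i) : ℤ) ∣ D) with hBd
  have hgood : ∀ k ∈ Ico 1 K, k ∉ Bd → L k = G k := by
    intro k hk hkB
    have hk1 : 1 ≤ k := (mem_Ico.1 hk).1
    have hk2 : k < K := (mem_Ico.1 hk).2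
    have hnd : ∀ i : Fin s, ¬ (pr (k + i) : ℤ) ∣ D := by
      intro i hi
      exact hkB (mem_filter.2 ⟨hk, i, hi⟩)
    apply point
    · intro i
      exact hab i (k + i) (by have := i.2; omega)
    · intro i
      have h1 := hx (k + i) (by omega)
      rcases jacobiSym.trichotomy D (pr (k + i)) with h | h | h
      · exfalso
        have : NeZero (pr (k + i)) := ⟨(pr_prime _).ne_zero⟩
        have h2 := (jacobiSym.eq_zero_iff_not_coprime).1 h
        apply h2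
        rw [Int.gcd_comm]
        have h4 : IsCoprime (pr (k + i) : ℤ) D :=
          ((Nat.prime_iff_prime_int.1 (pr_prime (k + i))).coprime_iff_not_dvd).2 (hnd i)
        exact Int.isCoprime_iff_gcd_eq_one.1 h4
      · left; exact ⟨h, h1.1 h⟩
      · right; exact ⟨h, h1.2 h⟩
  have hGsum : ∑ k ∈ Ico 1 K, G k = ∑ I ∈ (univ : Finset (Finset (Fin s))).erase ∅,
      2 ^ s * SD (Ico 1 K) (wt x I ab) (nk I) D := by
    simp only [hG]
    rw [sum_comm]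
    refine sum_congr rfl fun I _ => ?_
    rw [← mul_sum]
    rfl
  have hT' : |∑ k ∈ Ico 1 K, G k| ≤ 4 ^ s * T := by
    rw [hGsum]
    calc |∑ I ∈ (univ : Finset (Finset (Fin s))).erase ∅, 2 ^ s * SD (Ico 1 K) (wt x I ab) (nk I) D|
        ≤ ∑ I ∈ (univ : Finset (Finset (Fin s))).erase ∅, |2 ^ s * SD (Ico 1 K) (wt x I ab) (nk I) D| :=
          abs_sum_le_sum_abs _ _
      _ ≤ ∑ I ∈ (univ : Finset (Finset (Fin s))).erase ∅, (2 : ℝ) ^ s * T := by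
          apply sum_le_sum
          intro I hI
          rw [abs_mul, abs_of_pos h2s]
          apply mul_le_mul_of_nonneg_left _ h2s.le
          apply hT I (nonempty_iff_ne_empty.2 (mem_erase.1 hI).1) ab
          intro i
          exact ⟨ha i, hb i⟩
      _ = (((univ : Finset (Finset (Fin s))).erase ∅).card : ℝ) * (2 ^ s * T) := by
          rw [sum_const, nsmul_eq_mul]
      _ ≤ 4 ^ s * T := by
          have h1 : (((univ : Finset (Finset (Fin s))).erase ∅).card : ℝ) ≤ 2 ^ s := by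
            have : ((univ : Finset (Finset (Fin s))).erase ∅).card ≤ 2 ^ s := by
              refine le_trans (card_le_card (erase_subset _ _)) (le_of_eq ?_)
              rw [card_univ, Fintype.card_finset, Fintype.card_fin]
            exact_mod_cast this
          calc (((univ : Finset (Finset (Fin s))).erase ∅).card : ℝ) * (2 ^ s * T) ≤ 2 ^ s * (2 ^ s * T) :=
                mul_le_mul_of_nonneg_right h1 (by positivity)
            _ = 4 ^ s * T := by rw [← mul_assoc, ← mul_pow]; norm_num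
  have hdiff : |∑ k ∈ Ico 1 K, L k - ∑ k ∈ Ico 1 K, G k| ≤ 3 * 4 ^ s * (Bd.card : ℝ) := by
    rw [← sum_sub_distrib]
    calc |∑ k ∈ Ico 1 K, (L k - G k)| ≤ ∑ k ∈ Ico 1 K, |L k - G k| := abs_sum_le_sum_abs _ _
      _ ≤ ∑ k ∈ Ico 1 K, (if k ∈ Bd then 3 * (4 : ℝ) ^ s else 0) := by
          apply sum_le_sum
          intro k hk
          split_ifs with hkB
          · have h1 := hLb k
            have h2 := hGb k
            calc |L k - G k| ≤ |L k| + |G k| := abs_sub _ _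
              _ ≤ _ := by linarith
          · rw [hgood k hk hkB, sub_self, abs_zero]
      _ = 3 * 4 ^ s * (Bd.card : ℝ) := by
          rw [← sum_filter, sum_const, nsmul_eq_mul]
          have : (Ico 1 K).filter (fun k => k ∈ Bd) = Bd := by
            ext k
            rw [mem_filter]
            exact ⟨fun h => h.2, fun h => ⟨(mem_filter.1 h).1, h⟩⟩
          rw [this]; ring
  have hL0 := hLb 0
  have h4s : (0 : ℝ) < 4 ^ s := by positivity
  calc |L 0 + ∑ k ∈ Ico 1 K, L k| = |L 0 + ((∑ k ∈ Ico 1 K, L k - ∑ k ∈ Ico 1 K, G k) + ∑ k ∈ Ico 1 K, G k)| := by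
        congr 1; ring
    _ ≤ |L 0| + (|∑ k ∈ Ico 1 K, L k - ∑ k ∈ Ico 1 K, G k| + |∑ k ∈ Ico 1 K, G k|) := by
        refine le_trans (abs_add_le _ _) ?_
        gcongr
        exact abs_add_le _ _
    _ ≤ 2 * 4 ^ s + (3 * 4 ^ s * (Bd.card : ℝ) + 4 ^ s * T) := by gcongr
    _ ≤ _ := by linarith



/-- few `s`-tuples of consecutive primes contain a divisor of `D` -/
lemma bad_le (s K : ℕ) (D : ℤ) :
    ((Ico 1 K).filter (fun k => ∃ i : Fin s, (pr (k + i) : ℤ) ∣ D)).card ≤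
      s * (((range (K + s)).image pr).filter (fun p : ℕ => (p : ℤ) ∣ D)).card := by
  classical
  have hsub : (Ico 1 K).filter (fun k => ∃ i : Fin s, (pr (k + i) : ℤ) ∣ D) ⊆
      (univ : Finset (Fin s)).biUnion (fun i => (Ico 1 K).filter (fun k => (pr (k + i) : ℤ) ∣ D)) := by
    intro k hk
    obtain ⟨hk1, i, hi⟩ := mem_filter.1 hk
    exact mem_biUnion.2 ⟨i, mem_univ _, mem_filter.2 ⟨hk1, hi⟩⟩
  refine le_trans (card_le_card hsub) (le_trans card_biUnion_le ?_)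
  calc ∑ i : Fin s, ((Ico 1 K).filter (fun k => (pr (k + i) : ℤ) ∣ D)).card
      ≤ ∑ _i : Fin s, (((range (K + s)).image pr).filter (fun p : ℕ => (p : ℤ) ∣ D)).card := by
        apply sum_le_sum
        intro i _
        apply card_le_card_of_injOn (fun k => pr (k + i))
        · intro k hk
          rw [mem_coe, mem_filter, mem_Ico] at hk
          rw [mem_coe, mem_filter, mem_image]
          refine ⟨⟨k + i, ?_, rfl⟩, hk.2⟩
          rw [mem_range]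
          have := i.2
          omega
        · intro k _ l _ hkl
          have := pr_inj hkl
          omega
    _ = _ := by simp

noncomputable section

/-- the deviation of the counts for the twist from the means over the reflections -/
def Dev (A B : ℤ) (s : ℕ) (D : ℤ) (K : ℕ) (ε : ℝ) : Prop :=
  ∀ R : Fin s → Set ℝ, (∀ i, (R i).OrdConnected) →
    |(cons (A * D ^ 2) (B * D ^ 3) R K : ℝ) - (1 / 2 ^ s) * ∑ J : Finset (Fin s), (cons A B (refl J R) K : ℝ)| ≤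
      (K : ℝ) ^ (1 / 2 + ε)

theorem consWeak (s : ℕ) (ε a₀ : ℝ) (hε : 0 < ε) : ∃ K₀ : ℕ, ∀ K : ℕ, K₀ ≤ K → ∀ A B : ℤ, ∃ N₁ : ℕ, ∀ N : ℕ, N₁ ≤ N →
    (({D : ℤ | D ≠ 0 ∧ |D| ≤ N ∧ ¬ Dev A B s D K ε}.ncard : ℕ) : ℝ) ≤ (K : ℝ) ^ (-a₀) * N := by
  classical
  obtain ⟨m, hm1, hm2⟩ : ∃ m : ℕ, 5 * s + |a₀| + 1 ≤ ε * m ∧ 1 ≤ m := by
    refine ⟨⌈(5 * s + |a₀| + 1) / ε⌉₊ + 1, ?_, by omega⟩
    have h1 := Nat.le_ceil ((5 * s + |a₀| + 1) / ε)
    rw [div_le_iff₀ hε] at h1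
    push_cast
    nlinarith
  have hlog2 : 0 < Real.log 2 := Real.log_pos (by norm_num)
  have hev1 := ev_exp (1 / 2) (Real.log 2) (|a₀| + 3) 32 (by norm_num) hlog2
  have hev2 : ∀ᶠ x : ℕ in atTop, 12 * ((2 * m : ℕ) : ℝ) ^ m ≤ (x : ℝ) :=
    tendsto_natCast_atTop_atTop.eventually_ge_atTop _
  have hev3 : ∀ᶠ K : ℕ in atTop, (4 ^ s + 3 * 4 ^ s * (s + 1) : ℝ) ≤ (K : ℝ) ^ (ε / 2) :=
    ((tendsto_rpow_atTop (by positivity : 0 < ε / 2)).comp tendsto_natCast_atTop_atTop).eventually_ge_atTop _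
  obtain ⟨K₀, hK₀⟩ := eventually_atTop.1 (hev1.and (hev2.and (hev3.and (eventually_ge_atTop (max 1024 s)))))
  refine ⟨K₀, fun K hK A B => ?_⟩
  obtain ⟨he1, he2, he3, hKK⟩ := hK₀ K hK
  have hK1024 : 1024 ≤ K := le_trans (le_max_left _ _) hKK
  have hsK : s ≤ K := le_trans (le_max_right _ _) hKK
  have hKr : (1024 : ℝ) ≤ K := by exact_mod_cast hK1024
  have hK1 : (1 : ℝ) ≤ K := by linarith
  have hK0 : (0 : ℝ) < K := by linarith
  set x : ℕ → ℝ := fun k => ang A B (pr k) with hx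
  set Λ : Finset (Finset (Fin s) × (Fin s → ℕ × ℕ)) :=
    ((univ : Finset (Finset (Fin s))).filter (fun I => I.Nonempty)) ×ˢ
      Fintype.piFinset (fun _ => range (2 * (K + s) + 2) ×ˢ range (2 * (K + s) + 2)) with hΛ
  have hΛc : Λ.card ≤ K ^ (5 * s) := by
    rw [hΛ, card_product, Fintype.card_piFinset]
    simp only [card_product, card_range, prod_const, card_univ, Fintype.card_fin]
    have h2 : ((univ : Finset (Finset (Fin s))).filter (fun I => I.Nonempty)).card ≤ K ^ s := by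
      refine le_trans (card_filter_le _ _) ?_
      rw [card_univ, Fintype.card_finset, Fintype.card_fin]
      exact Nat.pow_le_pow_left (by omega) s
    have h3 : 2 * (K + s) + 2 ≤ K ^ 2 := by nlinarith
    calc _ ≤ K ^ s * ((K ^ 2) * (K ^ 2)) ^ s := by
          apply Nat.mul_le_mul h2
          apply Nat.pow_le_pow_left
          exact Nat.mul_le_mul h3 h3
      _ = K ^ (5 * s) := by ring
  set P := Ico 1 K with hP
  have hPc : P.card = K - 1 := by rw [hP, Nat.card_Ico]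
  have hPpos : (1 : ℝ) ≤ (P.card : ℝ) := by
    rw [hPc]
    have : 1 ≤ K - 1 := by omega
    exact_mod_cast this
  have hPK : (P.card : ℝ) ≤ K := by
    rw [hPc]
    exact_mod_cast Nat.sub_le K 1
  set T : ℝ := √(P.card : ℝ) * (K : ℝ) ^ (ε / 2) with hT
  have hT0 : 0 < T := by positivity
  set P' : Finset ℕ := (range (K + s)).image pr with hP'
  have hP'p : ∀ p ∈ P', p.Prime := by
    intro p hp
    obtain ⟨k, _, rfl⟩ := mem_image.1 hp
    exact pr_prime k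
  have hP'x : ∀ p ∈ P', p ≤ K ^ 2 := by
    intro p hp
    obtain ⟨k, hk, rfl⟩ := mem_image.1 hp
    exact pr_le s K hKK k (mem_range.1 hk)
  obtain ⟨v, hv⟩ : ∃ v : ℕ, v = ⌊(K : ℝ) ^ (1 / 2 : ℝ)⌋₊ + 1 := ⟨_, rfl⟩
  obtain ⟨N₁, hN₁⟩ := exists_nat_ge (4 * (K : ℝ) ^ |a₀| * ((K : ℝ) ^ (5 * s) * ((K : ℝ) ^ m * ((K : ℝ) ^ (2 * s)) ^ (2 * m)) + 2 ^ P'.card) + 1)
  refine ⟨N₁, fun N hN => ?_⟩
  have hNr : 4 * (K : ℝ) ^ |a₀| * ((K : ℝ) ^ (5 * s) * ((K : ℝ) ^ m * ((K : ℝ) ^ (2 * s)) ^ (2 * m)) + 2 ^ P'.card) + 1 ≤ N :=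
    hN₁.trans (by exact_mod_cast hN)
  have hN1 : (1 : ℝ) ≤ N := by
    have : 0 ≤ 4 * (K : ℝ) ^ |a₀| * ((K : ℝ) ^ (5 * s) * ((K : ℝ) ^ m * ((K : ℝ) ^ (2 * s)) ^ (2 * m)) + 2 ^ P'.card) := by positivity
    linarith
  have hAA : (K : ℝ) ^ (-|a₀|) ≤ (K : ℝ) ^ (-a₀) :=
    Real.rpow_le_rpow_of_exponent_le hK1 (neg_le_neg (le_abs_self a₀))
  have hAinv : (K : ℝ) ^ (-|a₀|) * (K : ℝ) ^ |a₀| = 1 := by
    rw [← Real.rpow_add hK0, neg_add_cancel, Real.rpow_zero]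
  have hpos : 0 < (K : ℝ) ^ (-|a₀|) := Real.rpow_pos_of_pos hK0 _
  -- the exceptional sets
  obtain ⟨B1, hB1⟩ : ∃ B1 : Finset (Fin s) × (Fin s → ℕ × ℕ) → Finset ℤ,
    B1 = fun l => (Icc (-(N : ℤ)) N).filter (fun D => T < |SD P (wt x l.1 l.2) (nk l.1) D|) := ⟨_, rfl⟩
  obtain ⟨B2, hB2⟩ : ∃ B2, B2 = (Icc (-(N : ℤ)) N).filter (fun D => v ≤ (P'.filter (fun p : ℕ => (p : ℤ) ∣ D)).card) := ⟨_, rfl⟩
  have hsub : {D : ℤ | D ≠ 0 ∧ |D| ≤ N ∧ ¬ Dev A B s D K ε} ⊆ ((Λ.biUnion B1 ∪ B2 : Finset ℤ) : Set ℤ) := by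
    rintro D ⟨hD0, hDN, hnd⟩
    rw [mem_coe, mem_union]
    by_contra hcon
    push Not at hcon
    obtain ⟨hc1, hc2⟩ := hcon
    have hDI : D ∈ Icc (-(N : ℤ)) N := mem_Icc.2 (abs_le.1 hDN)
    apply hnd
    intro R hR
    have htot := total2 x (fun k => ang (A * D ^ 2) (B * D ^ 3) (pr k)) D K R hR T hT0.le ?_ ?_
    · have hcD : (((range K).filter (fun k => ∀ i : Fin s,
          ang (A * D ^ 2) (B * D ^ 3) (pr (k + i)) ∈ R i)).card : ℝ) = cons (A * D ^ 2) (B * D ^ 3) R K := by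
        unfold Pool.Agent.W406.TW.cons
        rfl
      have hcJ : ∀ J : Finset (Fin s), (((range K).filter (fun k => ∀ i : Fin s,
          (if i ∈ J then 1 - x (k + i) else x (k + i)) ∈ R i)).card : ℝ) = cons A B (refl J R) K := by
        intro J
        unfold Pool.Agent.W406.TW.cons Pool.Agent.W406.TW.refl
        rfl
      simp only [hcJ] at htot
      rw [hcD] at htot
      have h2s : (1 : ℝ) ≤ 2 ^ s := one_le_pow₀ (by norm_num)
      have h2s' : (0 : ℝ) < 2 ^ s := by positivity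
      obtain ⟨u, hu⟩ : ∃ u : ℝ, u = (cons (A * D ^ 2) (B * D ^ 3) R K : ℝ) := ⟨_, rfl⟩
      obtain ⟨w, hw⟩ : ∃ w : ℝ, w = ∑ J : Finset (Fin s), (cons A B (refl J R) K : ℝ) := ⟨_, rfl⟩
      rw [← hu, ← hw] at htot ⊢
      have h1 : |u - (1 / 2 ^ s) * w| ≤ |(2 : ℝ) ^ s * u - w| := by
        have h3 : (2 : ℝ) ^ s * u - w = 2 ^ s * (u - (1 / 2 ^ s) * w) := by
          field_simp
        rw [h3, abs_mul, abs_of_pos h2s']
        nlinarith [abs_nonneg (u - (1 / 2 ^ s) * w)]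
      refine le_trans h1 (le_trans htot ?_)
      have hTK : T ≤ (K : ℝ) ^ (1 / 2 : ℝ) * (K : ℝ) ^ (ε / 2) := by
        rw [hT]
        apply mul_le_mul_of_nonneg_right _ (by positivity)
        rw [← Real.sqrt_eq_rpow]
        exact Real.sqrt_le_sqrt hPK
      have hbd : (((Ico 1 K).filter (fun k => ∃ i : Fin s, (pr (k + i) : ℤ) ∣ D)).card : ℝ) ≤ s * (K : ℝ) ^ (1 / 2 : ℝ) := by
        have h4 := bad_le s K D
        have h5 : (P'.filter (fun p : ℕ => (p : ℤ) ∣ D)).card < v := by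
          by_contra h6
          apply hc2
          rw [hB2, mem_filter]
          exact ⟨hDI, by omega⟩
        have h6 : ((P'.filter (fun p : ℕ => (p : ℤ) ∣ D)).card : ℝ) ≤ (K : ℝ) ^ (1 / 2 : ℝ) := by
          have h7 : (P'.filter (fun p : ℕ => (p : ℤ) ∣ D)).card ≤ ⌊(K : ℝ) ^ (1 / 2 : ℝ)⌋₊ := by omega
          exact (Nat.cast_le.2 h7).trans (Nat.floor_le (by positivity))
        calc (((Ico 1 K).filter (fun k => ∃ i : Fin s, (pr (k + i) : ℤ) ∣ D)).card : ℝ)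
            ≤ ((s * (P'.filter (fun p : ℕ => (p : ℤ) ∣ D)).card : ℕ) : ℝ) := by exact_mod_cast h4
          _ = s * ((P'.filter (fun p : ℕ => (p : ℤ) ∣ D)).card : ℝ) := by push_cast; rfl
          _ ≤ _ := mul_le_mul_of_nonneg_left h6 (Nat.cast_nonneg _)
      obtain ⟨a, ha⟩ : ∃ a : ℝ, a = (K : ℝ) ^ (1 / 2 : ℝ) := ⟨_, rfl⟩
      obtain ⟨b, hb⟩ : ∃ b : ℝ, b = (K : ℝ) ^ (ε / 2) := ⟨_, rfl⟩
      have hb1 : (1 : ℝ) ≤ b := hb ▸ Real.one_le_rpow hK1 (by positivity)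
      have ha1 : (1 : ℝ) ≤ a := ha ▸ Real.one_le_rpow hK1 (by norm_num)
      have e2 : (K : ℝ) ^ (1 / 2 + ε) = a * b * b := by
        rw [show (1 : ℝ) / 2 + ε = 1 / 2 + ε / 2 + ε / 2 by ring, Real.rpow_add hK0, Real.rpow_add hK0, ha, hb]
      rw [← ha, ← hb] at hTK
      rw [← ha] at hbd
      rw [← hb] at he3
      rw [e2]
      have h4s : (0 : ℝ) < 4 ^ s := by positivity
      have hs0 : (0 : ℝ) ≤ s := Nat.cast_nonneg s
      have hab : a ≤ a * b := le_mul_of_one_le_right (by linarith) hb1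
      have hab1 : 1 ≤ a * b := by linarith
      have hab0 : 0 ≤ a * b := by linarith
      calc 4 ^ s * T + 3 * 4 ^ s * ((((Ico 1 K).filter (fun k => ∃ i : Fin s, (pr (k + i) : ℤ) ∣ D)).card : ℝ) + 1)
          ≤ 4 ^ s * (a * b) + 3 * 4 ^ s * (s * (a * b) + a * b) := by
            have h8 : (s : ℝ) * a ≤ s * (a * b) := mul_le_mul_of_nonneg_left hab hs0
            gcongr
            linarith
        _ = (a * b) * (4 ^ s + 3 * 4 ^ s * (s + 1)) := by ring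
        _ ≤ (a * b) * b := mul_le_mul_of_nonneg_left he3 hab0
    · intro k hk
      exact ⟨fun h => ang_one A B D (pr_prime k) (pr_ne_two hk) h,
        fun h => ang_neg A B D (pr_prime k) (pr_ne_two hk) h⟩
    · intro I hI ab hab
      by_contra hlt'
      rw [not_le] at hlt'
      apply hc1
      rw [mem_biUnion]
      refine ⟨(I, ab), mem_product.2 ⟨mem_filter.2 ⟨mem_univ _, hI⟩, Fintype.mem_piFinset.2 fun i => ?_⟩, ?_⟩
      · exact mem_product.2 ⟨mem_range.2 (hab i).1, mem_range.2 (hab i).2⟩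
      · rw [hB1, mem_filter]
        exact ⟨hDI, hlt'⟩
  have hcard : (({D : ℤ | D ≠ 0 ∧ |D| ≤ N ∧ ¬ Dev A B s D K ε}.ncard : ℕ) : ℝ) ≤ ∑ l ∈ Λ, ((B1 l).card : ℝ) + B2.card := by
    have h1 := Set.ncard_le_ncard hsub (finite_toSet _)
    rw [Set.ncard_coe_finset] at h1
    have h2 := h1.trans ((card_union_le _ _).trans (Nat.add_le_add_right card_biUnion_le _))
    exact_mod_cast h2
  refine hcard.trans ?_
  -- the first part
  have hb1 : ∀ l ∈ Λ, ((B1 l).card : ℝ) ≤ 3 * ((2 * m : ℕ) : ℝ) ^ m * N / (K : ℝ) ^ (5 * s + |a₀| + 1) +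
      (K : ℝ) ^ m * ((K : ℝ) ^ (2 * s)) ^ (2 * m) := by
    intro l hl
    have hlI : l.1.Nonempty := (mem_filter.1 (mem_product.1 hl).1).2
    have h1 := few P (wt x l.1 l.2) (nk l.1) N m (K ^ (2 * s)) T hT0
      (fun k hk => nk_odd l.1 (mem_Ico.1 hk).1) (fun k hk => by
        unfold nk
        calc ∏ i ∈ l.1, pr (k + i) ≤ ∏ _i ∈ l.1, K ^ 2 := by
              apply prod_le_prod'
              intro i _
              apply pr_le s K hKK
              have := i.2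
              have := (mem_Ico.1 hk).2
              omega
          _ = (K ^ 2) ^ l.1.card := prod_const _
          _ ≤ (K ^ 2) ^ s := by
              apply Nat.pow_le_pow_right (by positivity)
              have := card_le_univ l.1
              rwa [Fintype.card_fin] at this
          _ = K ^ (2 * s) := by rw [pow_mul])
      (indep_nk l.1 hlI _) (fun k _ => wt_le x l.1 l.2 k)
    have hB1l : B1 l = (Icc (-(N : ℤ)) N).filter (fun D => T < |SD P (wt x l.1 l.2) (nk l.1) D|) := by rw [hB1]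
    rw [← hB1l] at h1
    have eT : T ^ (2 * m) = (P.card : ℝ) ^ m * ((K : ℝ) ^ (ε / 2)) ^ (2 * m) := by
      rw [hT, mul_pow, pow_mul, Real.sq_sqrt (by linarith)]
    have eb : ((K : ℝ) ^ (ε / 2)) ^ (2 * m) = (K : ℝ) ^ (ε * m) := by
      rw [← Real.rpow_natCast, ← Real.rpow_mul hK0.le]
      congr 1; push_cast; ring
    rw [eT, eb] at h1
    have hPm : (0 : ℝ) < (P.card : ℝ) ^ m := by positivity
    have hKm : (K : ℝ) ^ (5 * s + |a₀| + 1) ≤ (K : ℝ) ^ (ε * m) := Real.rpow_le_rpow_of_exponent_le hK1 hm1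
    have hKe : (0 : ℝ) < (K : ℝ) ^ (5 * s + |a₀| + 1) := by positivity
    have hKem1 : (1 : ℝ) ≤ (K : ℝ) ^ (ε * m) := Real.one_le_rpow hK1 (by positivity)
    have hc0 : (0 : ℝ) ≤ (B1 l).card := Nat.cast_nonneg _
    -- divide by `|P| ^ m`
    have h2 : ((B1 l).card : ℝ) * (K : ℝ) ^ (ε * m) ≤ ((2 * m : ℕ) : ℝ) ^ m * (3 * N) +
        (P.card : ℝ) ^ m * ((K : ℝ) ^ (2 * s)) ^ (2 * m) := by
      have h3 : ((B1 l).card : ℝ) * (K : ℝ) ^ (ε * m) * (P.card : ℝ) ^ m ≤ (((2 * m : ℕ) : ℝ) ^ m * (3 * N) +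
        (P.card : ℝ) ^ m * ((K : ℝ) ^ (2 * s)) ^ (2 * m)) * (P.card : ℝ) ^ m := by
        calc ((B1 l).card : ℝ) * (K : ℝ) ^ (ε * m) * (P.card : ℝ) ^ m
            = ((B1 l).card : ℝ) * ((P.card : ℝ) ^ m * (K : ℝ) ^ (ε * m)) := by ring
          _ ≤ _ := h1
          _ ≤ ((2 * m : ℕ) : ℝ) ^ m * (P.card : ℝ) ^ m * (3 * N) + (P.card : ℝ) ^ (2 * m) * ((K ^ (2 * s) : ℕ) : ℝ) ^ (2 * m) := by
              gcongr
              linarith
          _ = _ := by push_cast; rw [show (P.card : ℝ) ^ (2 * m) = (P.card : ℝ) ^ m * (P.card : ℝ) ^ m by rw [← pow_add]; congr 1; ring]; ring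
      exact le_of_mul_le_mul_right h3 hPm
    have h4 : ((B1 l).card : ℝ) ≤ (((2 * m : ℕ) : ℝ) ^ m * (3 * N)) / (K : ℝ) ^ (ε * m) +
        (P.card : ℝ) ^ m * ((K : ℝ) ^ (2 * s)) ^ (2 * m) := by
      have h5 : ((B1 l).card : ℝ) ≤ (((2 * m : ℕ) : ℝ) ^ m * (3 * N) +
        (P.card : ℝ) ^ m * ((K : ℝ) ^ (2 * s)) ^ (2 * m)) / (K : ℝ) ^ (ε * m) := by
        rw [le_div_iff₀ (by positivity)]
        exact h2
      rw [add_div] at h5
      have h6 : (P.card : ℝ) ^ m * ((K : ℝ) ^ (2 * s)) ^ (2 * m) / (K : ℝ) ^ (ε * m) ≤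
          (P.card : ℝ) ^ m * ((K : ℝ) ^ (2 * s)) ^ (2 * m) := div_le_self (by positivity) hKem1
      linarith
    calc ((B1 l).card : ℝ) ≤ _ := h4
      _ ≤ (((2 * m : ℕ) : ℝ) ^ m * (3 * N)) / (K : ℝ) ^ (5 * s + |a₀| + 1) + (K : ℝ) ^ m * ((K : ℝ) ^ (2 * s)) ^ (2 * m) := by
          gcongr
      _ = _ := by ring
  have hb1s : ∑ l ∈ Λ, ((B1 l).card : ℝ) ≤ (K : ℝ) ^ (-|a₀|) * N / 2 := by
    have hΛr : (Λ.card : ℝ) ≤ (K : ℝ) ^ (5 * s) := by exact_mod_cast hΛc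
    calc ∑ l ∈ Λ, ((B1 l).card : ℝ) ≤ ∑ _l ∈ Λ, (3 * ((2 * m : ℕ) : ℝ) ^ m * N / (K : ℝ) ^ (5 * s + |a₀| + 1) +
        (K : ℝ) ^ m * ((K : ℝ) ^ (2 * s)) ^ (2 * m)) := sum_le_sum hb1
      _ = (Λ.card : ℝ) * (3 * ((2 * m : ℕ) : ℝ) ^ m * N / (K : ℝ) ^ (5 * s + |a₀| + 1) +
        (K : ℝ) ^ m * ((K : ℝ) ^ (2 * s)) ^ (2 * m)) := by rw [sum_const, nsmul_eq_mul]
      _ ≤ (K : ℝ) ^ (5 * s) * (3 * ((2 * m : ℕ) : ℝ) ^ m * N / (K : ℝ) ^ (5 * s + |a₀| + 1) +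
        (K : ℝ) ^ m * ((K : ℝ) ^ (2 * s)) ^ (2 * m)) := by gcongr
      _ = 3 * ((2 * m : ℕ) : ℝ) ^ m * N * ((K : ℝ) ^ (5 * s) / (K : ℝ) ^ (5 * s + |a₀| + 1)) +
        (K : ℝ) ^ (5 * s) * ((K : ℝ) ^ m * ((K : ℝ) ^ (2 * s)) ^ (2 * m)) := by ring
      _ ≤ (K : ℝ) ^ (-|a₀|) * N / 4 + (K : ℝ) ^ (-|a₀|) * N / 4 := by
          apply add_le_add
          · have e5 : (K : ℝ) ^ (5 * s) / (K : ℝ) ^ (5 * s + |a₀| + 1) = (K : ℝ) ^ (-|a₀|) / K := by
              have e6 : (K : ℝ) ^ (5 * s + |a₀| + 1) = (K : ℝ) ^ (5 * s) * (K : ℝ) ^ |a₀| * K := by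
                rw [Real.rpow_add hK0, Real.rpow_add hK0, Real.rpow_one]
                congr 2
                rw [← Real.rpow_natCast]
                push_cast
                rfl
              rw [e6, Real.rpow_neg hK0.le]
              have : (K : ℝ) ^ |a₀| ≠ 0 := by positivity
              field_simp
            rw [e5]
            have h7 : 3 * ((2 * m : ℕ) : ℝ) ^ m ≤ K / 4 := by linarith
            calc 3 * ((2 * m : ℕ) : ℝ) ^ m * N * ((K : ℝ) ^ (-|a₀|) / K) ≤ (K / 4) * N * ((K : ℝ) ^ (-|a₀|) / K) := by gcongr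
              _ = (K : ℝ) ^ (-|a₀|) * N / 4 := by field_simp
          · have h8 : 4 * (K : ℝ) ^ |a₀| * ((K : ℝ) ^ (5 * s) * ((K : ℝ) ^ m * ((K : ℝ) ^ (2 * s)) ^ (2 * m))) ≤ N := by
              have h9 : 0 ≤ 4 * (K : ℝ) ^ |a₀| * (2 : ℝ) ^ P'.card := by positivity
              have h10 : 4 * (K : ℝ) ^ |a₀| * ((K : ℝ) ^ (5 * s) * ((K : ℝ) ^ m * ((K : ℝ) ^ (2 * s)) ^ (2 * m)) + 2 ^ P'.card) =
                4 * (K : ℝ) ^ |a₀| * ((K : ℝ) ^ (5 * s) * ((K : ℝ) ^ m * ((K : ℝ) ^ (2 * s)) ^ (2 * m))) +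
                4 * (K : ℝ) ^ |a₀| * (2 : ℝ) ^ P'.card := by ring
              linarith
            have h11 := mul_le_mul_of_nonneg_left h8 hpos.le
            have e4 : (K : ℝ) ^ (-|a₀|) * (4 * (K : ℝ) ^ |a₀| * ((K : ℝ) ^ (5 * s) * ((K : ℝ) ^ m * ((K : ℝ) ^ (2 * s)) ^ (2 * m)))) =
              4 * ((K : ℝ) ^ (5 * s) * ((K : ℝ) ^ m * ((K : ℝ) ^ (2 * s)) ^ (2 * m))) * ((K : ℝ) ^ (-|a₀|) * (K : ℝ) ^ |a₀|) := by ring
            rw [e4, hAinv, mul_one] at h11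
            linarith
      _ = (K : ℝ) ^ (-|a₀|) * N / 2 := by ring
  -- the second part
  have hb2 : (B2.card : ℝ) ≤ (K : ℝ) ^ (-|a₀|) * N / 2 := by
    have h1 := many_div P' hP'p (K ^ 2) N hP'x v
    rw [← hB2] at h1
    have h2 : 32 * (K : ℝ) ^ (|a₀| + 3) ≤ 2 ^ v := by
      refine he1.trans ?_
      have h3 : (K : ℝ) ^ (1 / 2 : ℝ) ≤ v := by
        rw [hv]; push_cast; exact (Nat.lt_floor_add_one _).le
      have h4 : (2 : ℝ) ^ v = Real.exp (Real.log 2 * v) := by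
        rw [mul_comm, Real.exp_nat_mul, Real.exp_log (by norm_num)]
      rw [h4]
      exact Real.exp_le_exp.2 (mul_le_mul_of_nonneg_left h3 hlog2.le)
    have e3 : (K : ℝ) ^ (-|a₀|) * (K : ℝ) ^ (|a₀| + 3) = (K : ℝ) ^ 3 := by
      rw [← Real.rpow_add hK0, ← Real.rpow_natCast]
      congr 1; push_cast; ring
    have h3 : (32 : ℝ) * (K : ℝ) ^ 3 ≤ (K : ℝ) ^ (-|a₀|) * 2 ^ v := by
      have := mul_le_mul_of_nonneg_left h2 hpos.le
      have e5 : (K : ℝ) ^ (-|a₀|) * (32 * (K : ℝ) ^ (|a₀| + 3)) = 32 * ((K : ℝ) ^ (-|a₀|) * (K : ℝ) ^ (|a₀| + 3)) := by ring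
      rw [e5, e3] at this
      exact this
    have h2v : (0 : ℝ) < 2 ^ v := by positivity
    have h4 : (2 : ℝ) ^ P'.card ≤ (K : ℝ) ^ (-|a₀|) * N / 4 := by
      have h8 : 4 * (K : ℝ) ^ |a₀| * (2 : ℝ) ^ P'.card ≤ N := by
        have h9 : 0 ≤ 4 * (K : ℝ) ^ |a₀| * ((K : ℝ) ^ (5 * s) * ((K : ℝ) ^ m * ((K : ℝ) ^ (2 * s)) ^ (2 * m))) := by positivity
        have h10 : 4 * (K : ℝ) ^ |a₀| * ((K : ℝ) ^ (5 * s) * ((K : ℝ) ^ m * ((K : ℝ) ^ (2 * s)) ^ (2 * m)) + 2 ^ P'.card) =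
          4 * (K : ℝ) ^ |a₀| * ((K : ℝ) ^ (5 * s) * ((K : ℝ) ^ m * ((K : ℝ) ^ (2 * s)) ^ (2 * m))) +
          4 * (K : ℝ) ^ |a₀| * (2 : ℝ) ^ P'.card := by ring
        linarith
      have h11 := mul_le_mul_of_nonneg_left h8 hpos.le
      have e4 : (K : ℝ) ^ (-|a₀|) * (4 * (K : ℝ) ^ |a₀| * (2 : ℝ) ^ P'.card) =
        4 * (2 : ℝ) ^ P'.card * ((K : ℝ) ^ (-|a₀|) * (K : ℝ) ^ |a₀|) := by ring
      rw [e4, hAinv, mul_one] at h11
      linarith
    have h5 : 2 * (N : ℝ) * (((K ^ 2 : ℕ) : ℝ) + 1) ≤ 8 * N * (K : ℝ) ^ 3 := by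
      push_cast
      have h6 : (K : ℝ) ^ 2 + 1 ≤ 4 * (K : ℝ) ^ 3 := by nlinarith [sq_nonneg (K : ℝ)]
      nlinarith
    have h6 : 8 * (N : ℝ) * (K : ℝ) ^ 3 ≤ (K : ℝ) ^ (-|a₀|) * N / 4 * 2 ^ v := by nlinarith
    have h7 : (K : ℝ) ^ (-|a₀|) * N / 4 ≤ (K : ℝ) ^ (-|a₀|) * N / 4 * 2 ^ v := by
      apply le_mul_of_one_le_right (by positivity)
      exact one_le_pow₀ (by norm_num)
    have h8 : (B2.card : ℝ) * 2 ^ v ≤ (K : ℝ) ^ (-|a₀|) * N / 2 * 2 ^ v := by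
      have e6 : (K : ℝ) ^ (-|a₀|) * N / 2 * 2 ^ v = (K : ℝ) ^ (-|a₀|) * N / 4 * 2 ^ v + (K : ℝ) ^ (-|a₀|) * N / 4 * 2 ^ v := by ring
      rw [e6]
      linarith
    exact le_of_mul_le_mul_right h8 h2v
  have h12 : (K : ℝ) ^ (-|a₀|) * N ≤ (K : ℝ) ^ (-a₀) * N := mul_le_mul_of_nonneg_right hAA (by linarith)
  linarith

end

end Pool.Agent.R429.TLC
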