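import Mathlib
import Pool.Agent.R429.TL.Equiv

/-! # Points and quadratic twists -/

set_option autoImplicit false

namespace Pool.Agent.R429.TL

open Finset Filter

noncomputable section

open Classical in
/-- The number of the points over `F_p`, with the point at infinity, of `Y ^ 2 = X ^ 3 + A X + B`. -/
def points (A B : ℤ) (p : ℕ) : ℕ :=
  ((range p ×ˢ range p).filter (fun xy => (p : ℤ) ∣ (xy.2 : ℤ) ^ 2 - ((xy.1 : ℤ) ^ 3 + A * xy.1 + B))).card + 1

open Pool.Agent.W406.TW (ap jz jz_cast ap_eq ap_twist dvd_disc not_dvd_of_jac)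

lemma points_eq (A B : ℤ) {p : ℕ} (hp : p.Prime) (hp2 : p ≠ 2) : (points A B p : ℤ) = p + 1 - ap A B p := by
  classical
  have hne : NeZero p := ⟨hp.ne_zero⟩
  have hF : Fact p.Prime := ⟨hp⟩
  have h1 : ((range p ×ˢ range p).filter (fun xy => (p : ℤ) ∣ (xy.2 : ℤ) ^ 2 - ((xy.1 : ℤ) ^ 3 + A * xy.1 + B))).card =
      ∑ x ∈ range p, ((range p).filter (fun y => (p : ℤ) ∣ ((y : ℕ) : ℤ) ^ 2 - ((x : ℤ) ^ 3 + A * x + B))).card := by
    rw [card_filter, sum_product]
    apply sum_congr rfl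
    intro x _
    rw [card_filter]
  have h2 : ∀ x ∈ range p, ((((range p).filter (fun y => (p : ℤ) ∣ ((y : ℕ) : ℤ) ^ 2 - ((x : ℤ) ^ 3 + A * x + B))).card : ℕ) : ℤ) =
      jacobiSym ((x : ℤ) ^ 3 + A * x + B) p + 1 := by
    intro x _
    obtain ⟨a, ha⟩ : ∃ a : ℤ, a = (x : ℤ) ^ 3 + A * x + B := ⟨_, rfl⟩
    rw [← ha]
    have h3 := quadraticChar_card_sqrts (F := ZMod p) (by rwa [ZMod.ringChar_zmod_n]) ((a : ℤ) : ZMod p)
    have h4 : jacobiSym a p = quadraticChar (ZMod p) ((a : ℤ) : ZMod p) := by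
      rw [← jacobiSym.legendreSym.to_jacobiSym]; rfl
    rw [h4, ← h3]
    refine congrArg (fun n : ℕ => (n : ℤ)) ?_
    apply card_bij (fun (y : ℕ) _ => (y : ZMod p))
    · intro y hy
      rw [mem_filter] at hy
      rw [Set.mem_toFinset, Set.mem_setOf_eq, ← sub_eq_zero]
      have := (ZMod.intCast_zmod_eq_zero_iff_dvd (((y : ℕ) : ℤ) ^ 2 - a) p).2 hy.2
      push_cast at this
      exact this
    · intro y hy z hz h
      rw [mem_filter, mem_range] at hy hz
      have := congrArg ZMod.val h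
      rwa [ZMod.val_natCast_of_lt hy.1, ZMod.val_natCast_of_lt hz.1] at this
    · intro z hz
      rw [Set.mem_toFinset, Set.mem_setOf_eq, ← sub_eq_zero] at hz
      refine ⟨z.val, ?_, ZMod.natCast_zmod_val z⟩
      rw [mem_filter, mem_range]
      refine ⟨ZMod.val_lt z, ?_⟩
      rw [← ZMod.intCast_zmod_eq_zero_iff_dvd]
      push_cast
      rw [ZMod.natCast_zmod_val]
      exact hz
  unfold points ap
  rw [h1]
  push_cast
  rw [sum_congr rfl h2, sum_add_distrib, sum_const, card_range, nsmul_eq_mul]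
  ring

/-- the good primes up to `x` -/
def PG (A B : ℤ) (x : ℕ) : Finset ℕ :=
  (range (x + 1)).filter (fun p : ℕ => p.Prime ∧ ¬ ((p : ℤ) ∣ 2 * (4 * A ^ 3 + 27 * B ^ 2)))

lemma PG_prop (A B : ℤ) (x : ℕ) : ∀ p ∈ PG A B x, p.Prime ∧ p ≠ 2 ∧ p ≤ x := by
  intro p hp
  unfold PG at hp
  rw [mem_filter, mem_range] at hp
  refine ⟨hp.2.1, ?_, by omega⟩
  rintro rfl
  exact hp.2.2 (Dvd.intro _ rfl)

lemma twist_points (A B D : ℤ) {p : ℕ} (hp : p.Prime) (hp2 : p ≠ 2) :
    (jacobiSym D p = 1 → points (A * D ^ 2) (B * D ^ 3) p = points A B p) ∧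
    (jacobiSym D p = -1 → (points (A * D ^ 2) (B * D ^ 3) p : ℤ) = 2 * p + 2 - points A B p) := by
  have h1 := points_eq (A * D ^ 2) (B * D ^ 3) hp hp2
  have h2 := points_eq A B hp hp2
  have h3 := ap_twist A B D hp hp2
  constructor
  · intro h
    rw [h3, h] at h1
    have : (points (A * D ^ 2) (B * D ^ 3) p : ℤ) = points A B p := by linarith
    exact_mod_cast this
  · intro h
    rw [h3, h] at h1
    linarith


end

end Pool.Agent.R429.TL
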